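import Pool.Agent.IR.Sel

/-!
# The system of the second tests (MP_ed14c7_lc)
-/

open Finset

namespace Pool.Agent.IR

variable {V : Type*} (G : SimpleGraph V) (t : V) (E : V → ℕ)

/-- the nodes which may not be tested by `x` in the second place -/
def Forb (σ : V → V → Option V) (x : V) : Set V :=
  {w | ∃ x', E x' < E x ∧ ((∃ z, G.Adj t z ∧ σ x' z = some w) ∨ σ x' x = some w)}

variable {G t E}

theorem forb_congr {σ σ' : V → V → Option V} {x : V} (h : ∀ x', E x' < E x → σ x' = σ' x') :
    Forb G t E σ x = Forb G t E σ' x := by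
  ext w
  unfold Forb
  constructor
  · rintro ⟨x', h1, h2⟩
    refine ⟨x', h1, ?_⟩
    rw [← h x' h1]
    exact h2
  · rintro ⟨x', h1, h2⟩
    refine ⟨x', h1, ?_⟩
    rw [h x' h1]
    exact h2

theorem Bad.unique (hE : Function.Injective E) {x x' y : V} (h : Bad G t E x y)
    (h' : Bad G t E x' y) : x = x' :=
  hE (le_antisymm (h.2.2.2.2 _ h'.1 h'.2.2.1) (h'.2.2.2.2 _ h.1 h.2.2.1))

variable [Fintype V]

/-- the target of a second-stage test -/
theorem Sys.stage2 {k : ℕ} {x : V} {Fo : Set V} {τ : V → Option V} (h : Sys G t E k x Fo τ)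
    {z w : V} (hz : G.Adj t z) (hw : τ z = some w) :
    G.Adj x z ∧ z ∉ Fo ∧ G.Adj z w ∧ G.Adj t w ∧ ¬ G.Adj x w ∧ ∃ y, Bad G t E x y ∧ τ y = some z := by
  rcases h.dom z w hw with ⟨h1, -⟩ | h1
  · exact absurd hz h1.2.1.2
  · exact h1.2

theorem Sys.stage1 {k : ℕ} {x : V} {Fo : Set V} {τ : V → Option V} (h : Sys G t E k x Fo τ)
    {z w : V} (hz : ¬ G.Adj t z) (hw : τ z = some w) :
    Bad G t E x z ∧ G.Adj z w ∧ G.Adj t w ∧ (G.Adj x w → w ∉ Fo ∧ ∃ h, τ w = some h) := by
  rcases h.dom z w hw with h1 | ⟨h1, -⟩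
  · exact h1
  · exact absurd h1 hz

open Classical in
/-- The induction. -/
theorem ind (hE : Function.Injective E) {k : ℕ} (hk : ∀ v, k ≤ dg G v)
    (hn : 3 * Fintype.card V ≤ 2 * k + 2 * dg G t + 7) (i : ℕ) :
    ∃ σ : V → V → Option V,
      (∀ x, Far G t x → E x < i → Sys G t E k x (Forb G t E σ x) (σ x)) ∧
      ∀ x, ¬ (Far G t x ∧ E x < i) → ∀ u, σ x u = none := by
  induction i with
  | zero => exact ⟨fun _ _ => none, fun x _ h => absurd h (Nat.not_lt_zero _), fun _ _ _ => rfl⟩
  | succ i ih =>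
    obtain ⟨σ, h1, h2⟩ := ih
    by_cases hx : ∃ x, Far G t x ∧ E x = i
    swap
    · refine ⟨σ, fun x hxf hxi => ?_, fun x hxf => ?_⟩
      · have : E x ≠ i := fun h => hx ⟨x, hxf, h⟩
        exact h1 x hxf (by omega)
      · exact h2 x fun h => hxf ⟨h.1, by omega⟩
    obtain ⟨x, hxf, hxi⟩ := hx
    have hsome : ∀ x' u w, σ x' u = some w →
        Far G t x' ∧ E x' < i ∧ Sys G t E k x' (Forb G t E σ x') (σ x') := by
      intro x' u w h
      by_contra hcon
      by_cases hc : Far G t x' ∧ E x' < i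
      · exact hcon ⟨hc.1, hc.2, h1 x' hc.1 hc.2⟩
      · rw [h2 x' hc u] at h
        exact absurd h (by simp)
    -- the sets
    set W1 : Finset V := Finset.univ.filter fun w => ∃ x', E x' < E x ∧
      ∃ z, G.Adj t z ∧ σ x' z = some w with hW1
    set W2 : Finset V := Finset.univ.filter fun w => ∃ x', E x' < E x ∧ σ x' x = some w with hW2
    set P : Finset V := Finset.univ.filter fun p => Bad G t E p x ∧ ∃ w, σ p x = some w with hP
    set Y : Finset V := Finset.univ.filter (Bad G t E x) with hY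
    set FF : Finset V := Finset.univ.filter fun v => Far G t v with hFF
    have c1 : W1.card + Y.card + 1 ≤ FF.card := by
      -- the first far node
      have hne : FF.Nonempty := ⟨x, Finset.mem_filter.2 ⟨Finset.mem_univ _, hxf⟩⟩
      obtain ⟨v0, hv0, hv0min⟩ := Finset.exists_min_image FF E hne
      have hv0f : Far G t v0 := (Finset.mem_filter.1 hv0).2
      have hv0b : ∀ x', ¬ Bad G t E x' v0 := fun x' hb =>
        absurd (hv0min x' (Finset.mem_filter.2 ⟨Finset.mem_univ _, hb.1⟩))
          (not_le.2 hb.2.2.2.1)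
      have hYF : insert v0 Y ⊆ FF := by
        intro v hv
        rcases Finset.mem_insert.1 hv with rfl | hv
        · exact hv0
        · exact Finset.mem_filter.2 ⟨Finset.mem_univ _, (Finset.mem_filter.1 hv).2.2.1⟩
      have hv0Y : v0 ∉ Y := fun h => hv0b x (Finset.mem_filter.1 h).2
      have c2 : W1.card ≤ (FF \ insert v0 Y).card := by
        refine Finset.card_le_card_of_forall_subsingleton
          (fun w y => ∃ x' z, E x' < E x ∧ G.Adj t z ∧ σ x' z = some w ∧ Bad G t E x' y ∧
            σ x' y = some z) ?_ ?_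
        · intro w hw
          obtain ⟨x', hx', z, hz, hσ⟩ := (Finset.mem_filter.1 hw).2
          obtain ⟨hx'f, -, hS⟩ := hsome _ _ _ hσ
          obtain ⟨-, -, -, -, -, y, hy, hyz⟩ := hS.stage2 hz hσ
          refine ⟨y, ?_, x', z, hx', hz, hσ, hy, hyz⟩
          rw [Finset.mem_sdiff, Finset.mem_insert]
          refine ⟨Finset.mem_filter.2 ⟨Finset.mem_univ _, hy.2.1⟩, ?_⟩
          rintro (rfl | hyY)
          · exact hv0b _ hy
          · have := hy.unique hE (Finset.mem_filter.1 hyY).2
            subst this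
            exact lt_irrefl _ hx'
        · rintro y - w ⟨-, x', z, hx', hz, hσ, hy, hyz⟩ w' ⟨-, x2, z2, hx2, hz2, hσ2, hy2, hyz2⟩
          have e1 := hy.unique hE hy2
          subst e1
          have e2 : z = z2 := Option.some.inj (hyz.symm.trans hyz2)
          subst e2
          exact Option.some.inj (hσ.symm.trans hσ2)
      have c3 := Finset.card_sdiff_add_card_eq_card hYF
      rw [Finset.card_insert_of_notMem hv0Y] at c3
      omega
    have c4 : W2.card ≤ P.card := by
      have hnx : ¬ G.Adj t x := hxf.2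
      refine Finset.card_le_card_of_forall_subsingleton (fun w p => σ p x = some w) ?_ ?_
      · intro w hw
        obtain ⟨x', hx', hσ⟩ := (Finset.mem_filter.1 hw).2
        obtain ⟨hx'f, -, hS⟩ := hsome _ _ _ hσ
        exact ⟨x', Finset.mem_filter.2 ⟨Finset.mem_univ _, (hS.stage1 hnx hσ).1, w, hσ⟩, hσ⟩
      · rintro p - w ⟨-, h⟩ w' ⟨-, h'⟩
        exact Option.some.inj (h.symm.trans h')
    have hFo : ((W1 ∪ W2 : Finset V) : Set V) = Forb G t E σ x := by
      ext w
      rw [Finset.mem_coe, Finset.mem_union, hW1, hW2, Finset.mem_filter, Finset.mem_filter]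
      unfold Forb
      constructor
      · rintro (⟨-, x', h3, h4⟩ | ⟨-, x', h3, h4⟩)
        · exact ⟨x', h3, Or.inl h4⟩
        · exact ⟨x', h3, Or.inr h4⟩
      · rintro ⟨x', h3, h4 | h4⟩
        · exact Or.inl ⟨Finset.mem_univ _, x', h3, h4⟩
        · exact Or.inr ⟨Finset.mem_univ _, x', h3, h4⟩
    obtain ⟨τ, hτ⟩ := sel G t E hk x hxf (W1 ∪ W2) P
      (fun p hp => ⟨(Finset.mem_filter.1 hp).2.1.1, (Finset.mem_filter.1 hp).2.1.2.2.2.1⟩)
      (by
        have h3 := Finset.card_union_le W1 W2
        rw [← hY, ← hFF]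
        omega) hn
    rw [hFo] at hτ
    refine ⟨Function.update σ x τ, fun v hv hvi => ?_, fun v hv => ?_⟩
    · have hcongr : Forb G t E (Function.update σ x τ) v = Forb G t E σ v := by
        refine forb_congr fun x' hx' => ?_
        rw [Function.update_of_ne]
        rintro rfl
        omega
      rw [hcongr]
      by_cases hvx : v = x
      · subst hvx
        rw [Function.update_self]
        exact hτ
      · rw [Function.update_of_ne hvx]
        have : E v ≠ i := fun h => hvx (hE (h.trans hxi.symm))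
        exact h1 v hv (by omega)
    · have hvx : v ≠ x := by
        rintro rfl
        exact hv ⟨hxf, by omega⟩
      rw [Function.update_of_ne hvx]
      exact h2 v fun h => hv ⟨h.1, by omega⟩

end Pool.Agent.IR
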