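import Pool.Agent.IR.Core
import Pool.Agent.IR.Ind

/-!
# Counting failed links (MP_ed14c7_lc)
-/

open Finset

namespace Pool.Agent.IR

variable {V : Type*} [Fintype V] {G : SimpleGraph V} {t : V} {E : V → ℕ}

/-- how the link between `b` and `t` is used -/
def Own (G : SimpleGraph V) (t x : V) (F : Finset (Sym2 V)) (τ : V → Option V) (b u : V) : Prop :=
  (G.Adj x b ∧ s(x, b) ∉ F ∧ u = b) ∨
  ((¬ G.Adj x b ∨ s(x, b) ∈ F) ∧ ¬ G.Adj t u ∧ τ u = some b) ∨
  (¬ G.Adj x b ∧ ∃ a, G.Adj t a ∧ ¬ G.Adj t u ∧ τ u = some a ∧ τ a = some b)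

omit [Fintype V] in
theorem Own.unique {x : V} {F : Finset (Sym2 V)} {τ : V → Option V}
    (hinj : ∀ u u' w, τ u = some w → τ u' = some w → u = u') {b u u' : V}
    (h : Own G t x F τ b u) (h' : Own G t x F τ b u') : u = u' := by
  rcases h with ⟨h1, h2, rfl⟩ | ⟨h1, h2, h3⟩ | ⟨h1, a, h2, h3, h4, h5⟩
  · rcases h' with ⟨-, -, rfl⟩ | ⟨k1, -, -⟩ | ⟨k1, -⟩
    · rfl
    · rcases k1 with k1 | k1
      · exact absurd h1 k1
      · exact absurd k1 h2
    · exact absurd h1 k1
  · rcases h' with ⟨k1, k2, rfl⟩ | ⟨k1, k2, k3⟩ | ⟨k1, a', k2, k3, k4, k5⟩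
    · rcases h1 with h1 | h1
      · exact absurd k1 h1
      · exact absurd h1 k2
    · exact hinj _ _ _ h3 k3
    · have := hinj _ _ _ h3 k5
      subst this
      exact absurd k2 h2
  · rcases h' with ⟨k1, k2, rfl⟩ | ⟨k1, k2, k3⟩ | ⟨k1, a', k2, k3, k4, k5⟩
    · exact absurd k1 h1
    · have := hinj _ _ _ k3 h5
      subst this
      exact absurd h2 k2
    · have := hinj _ _ _ h5 k5
      subst this
      exact hinj _ _ _ h4 k4

/-- which links are used for the neighbour `u` of `x` -/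
inductive Use (G : SimpleGraph V) (t x : V) [LT V] (F : Finset (Sym2 V)) (τ : V → Option V) (u : V) :
    Sym2 V → Prop
  | own : Use G t x F τ u s(x, u)
  | tgt (b : V) (hb : G.Adj t b) (ho : Own G t x F τ b u) : Use G t x F τ u s(b, t)
  | far (m : V) (hu : Far G t u) (hm : Far G t m) (hmx : m < x) (hxu : x < u) :
      Use G t x F τ u s(u, m)
  | mix (a : V) (hu : Far G t u) (hux : u ≠ x) (ha : G.Adj t a) : Use G t x F τ u s(u, a)
  | near (a h : V) (ha : G.Adj t a) (hh : G.Adj t h) (hxa : G.Adj x a) (hxh : ¬ G.Adj x h)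
      (hu : ¬ G.Adj t u) (hua : τ u = some a) : Use G t x F τ u s(a, h)

omit [Fintype V] in
theorem Use.unique [LinearOrder V] {x : V} {F : Finset (Sym2 V)} {τ : V → Option V}
    (hx : Far G t x)
    (hinj : ∀ u u' w, τ u = some w → τ u' = some w → u = u') {u u' : V} {e : Sym2 V}
    (h : Use G t x F τ u e) (h' : Use G t x F τ u' e) (hu : G.Adj x u) (hu' : G.Adj x u') :
    u = u' := by
  have key : ∀ {a b c d : V}, s(a, b) = s(c, d) → (a = c ∧ b = d) ∨ (a = d ∧ b = c) :=
    fun h => Sym2.eq_iff.1 h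
  have htt : ¬ G.Adj t t := G.irrefl
  obtain ⟨hx1, hx2⟩ := hx
  generalize he : e = e' at h'
  cases h with
  | own =>
    cases h' with
    | own =>
      exact Sym2.congr_right.1 he
    | tgt b hb ho =>
      exfalso
      rcases key he with ⟨rfl, rfl⟩ | ⟨rfl, rfl⟩
      · exact hx2 hb
      · exact hx1 rfl
    | far m k1 k2 k3 k4 =>
      exfalso
      rcases key he with ⟨rfl, rfl⟩ | ⟨rfl, rfl⟩
      · exact lt_irrefl _ k4
      · exact lt_irrefl _ k3
    | mix a k1 k2 k3 =>
      exfalso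
      rcases key he with ⟨rfl, rfl⟩ | ⟨rfl, rfl⟩
      · exact k2 rfl
      · exact hx2 k3
    | near a h k1 k2 k3 k4 k5 k6 =>
      exfalso
      rcases key he with ⟨rfl, rfl⟩ | ⟨rfl, rfl⟩
      · exact hx2 k1
      · exact hx2 k2
  | tgt c hc hoc =>
    cases h' with
    | own =>
      exfalso
      rcases key he with ⟨rfl, rfl⟩ | ⟨rfl, rfl⟩
      · exact hx2 hc
      · exact hx1 rfl
    | tgt b hb ho =>
      have : c = b := by
        rcases key he with ⟨h1, -⟩ | ⟨h1, h2⟩
        · exact h1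
        · exact h1.trans h2
      subst this
      exact hoc.unique hinj ho
    | far m k1 k2 k3 k4 =>
      exfalso
      rcases key he with ⟨-, h2⟩ | ⟨-, h2⟩
      · exact k2.1 h2.symm
      · exact k1.1 h2.symm
    | mix a k1 k2 k3 =>
      exfalso
      rcases key he with ⟨-, h2⟩ | ⟨-, h2⟩
      · rw [← h2] at k3; exact htt k3
      · exact k1.1 h2.symm
    | near a h k1 k2 k3 k4 k5 k6 =>
      exfalso
      rcases key he with ⟨-, h2⟩ | ⟨-, h2⟩
      · rw [← h2] at k2; exact htt k2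
      · rw [← h2] at k1; exact htt k1
  | far m j1 j2 j3 j4 =>
    cases h' with
    | own =>
      exfalso
      rcases key he with ⟨h1, h2⟩ | ⟨h1, h2⟩
      · rw [h1] at j4; exact lt_irrefl _ j4
      · rw [h2] at j3; exact lt_irrefl _ j3
    | tgt b hb ho =>
      exfalso
      rcases key he with ⟨h1, h2⟩ | ⟨h1, h2⟩
      · exact j2.1 h2
      · exact j1.1 h1
    | far m' k1 k2 k3 k4 =>
      rcases key he with ⟨h1, h2⟩ | ⟨h1, h2⟩
      · exact h1
      · exfalso
        rw [h1] at j4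
        exact lt_asymm j4 k3
    | mix a k1 k2 k3 =>
      exfalso
      rcases key he with ⟨h1, h2⟩ | ⟨h1, h2⟩
      · rw [← h2] at k3; exact j2.2 k3
      · rw [← h1] at k3; exact j1.2 k3
    | near a h k1 k2 k3 k4 k5 k6 =>
      exfalso
      rcases key he with ⟨h1, h2⟩ | ⟨h1, h2⟩
      · rw [← h1] at k1; exact j1.2 k1
      · rw [← h1] at k2; exact j1.2 k2
  | mix a j1 j2 j3 =>
    cases h' with
    | own =>
      exfalso
      rcases key he with ⟨h1, h2⟩ | ⟨h1, h2⟩
      · exact j2 h1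
      · rw [h2] at j3; exact hx2 j3
    | tgt b hb ho =>
      exfalso
      rcases key he with ⟨h1, h2⟩ | ⟨h1, h2⟩
      · rw [h2] at j3; exact htt j3
      · exact j1.1 h1
    | far m' k1 k2 k3 k4 =>
      exfalso
      rcases key he with ⟨h1, h2⟩ | ⟨h1, h2⟩
      · rw [h2] at j3; exact k2.2 j3
      · rw [h2] at j3; exact k1.2 j3
    | mix a' k1 k2 k3 =>
      rcases key he with ⟨h1, h2⟩ | ⟨h1, h2⟩
      · exact h1
      · exfalso
        rw [h1] at j1; exact j1.2 k3
    | near a' h k1 k2 k3 k4 k5 k6 =>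
      exfalso
      rcases key he with ⟨h1, h2⟩ | ⟨h1, h2⟩
      · rw [h1] at j1; exact j1.2 k1
      · rw [h1] at j1; exact j1.2 k2
  | near a h j1 j2 j3 j4 j5 j6 =>
    cases h' with
    | own =>
      exfalso
      rcases key he with ⟨h1, h2⟩ | ⟨h1, h2⟩
      · rw [h1] at j1; exact hx2 j1
      · rw [h2] at j2; exact hx2 j2
    | tgt b hb ho =>
      exfalso
      rcases key he with ⟨h1, h2⟩ | ⟨h1, h2⟩
      · rw [h2] at j2; exact htt j2
      · rw [h1] at j1; exact htt j1
    | far m' k1 k2 k3 k4 =>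
      exfalso
      rcases key he with ⟨h1, h2⟩ | ⟨h1, h2⟩
      · rw [h1] at j1; exact k1.2 j1
      · rw [h1] at j1; exact k2.2 j1
    | mix a' k1 k2 k3 =>
      exfalso
      rcases key he with ⟨h1, h2⟩ | ⟨h1, h2⟩
      · rw [h1] at j1; exact k1.2 j1
      · rw [h2] at j2; exact k1.2 j2
    | near a' h' k1 k2 k3 k4 k5 k6 =>
      rcases key he with ⟨h1, h2⟩ | ⟨h1, h2⟩
      · rw [h1] at j6
        exact hinj _ _ _ j6 k6
      · exfalso
        rw [h1] at j3
        exact k4 j3

open Classical in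
/-- The counting lemma. -/
theorem count [LinearOrder V] (ht : ∀ v, t ≤ v) (hfn : ∀ f a, Far G t f → G.Adj t a → f < a)
    (hff : ∀ f f', Far G t f → Far G t f' → f < f' → E f < E f')
    {k : ℕ} (hk : ∀ v, k ≤ dg G v) {σ : V → V → Option V}
    (hσ : ∀ x, Far G t x → Sys G t E k x (Forb G t E σ x) (σ x))
    (F : Finset (Sym2 V)) {x : V} (hxt : x ≠ t)
    (hx : ∀ u, G.Adj x u → s(x, u) ∉ F →
      x < u ∧ (∀ m, IsHome G u m → m ≠ x → s(u, m) ∈ F) ∧
      ∀ w, σ x u = some w → s(u, w) ∈ F ∨ ∀ m, IsHome G w m → s(w, m) ∈ F) : k ≤ F.card := by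
  have hht : ∀ a, G.Adj t a → IsHome G a t := fun a ha => ⟨ha.symm, fun w _ => ht w⟩
  by_cases hxf : Far G t x
  swap
  · -- `x` is a neighbour of `t`
    have hxn : G.Adj t x := by
      by_contra h
      exact hxf ⟨hxt, h⟩
    refine (hk x).trans ?_
    unfold dg
    refine Finset.card_le_card_of_forall_subsingleton
      (fun u e => G.Adj x u ∧ (e = s(x, u) ∨ (u ≠ t ∧ e = s(u, t)))) ?_ ?_
    · intro u hu
      have hu' := (Finset.mem_filter.1 hu).2
      by_cases hF : s(x, u) ∈ F
      · exact ⟨_, hF, hu', Or.inl rfl⟩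
      · obtain ⟨h1, h2, -⟩ := hx u hu' hF
        have h3 : u ≠ t := by
          rintro rfl
          exact absurd h1 (not_lt.2 (ht x))
        have h4 : G.Adj t u := by
          by_contra h4
          exact absurd h1 (not_lt.2 (hfn u x ⟨h3, h4⟩ hxn).le)
        exact ⟨_, h2 t (hht u h4) hxt.symm, hu', Or.inr ⟨h3, rfl⟩⟩
    · rintro e - u ⟨-, hu1, hu2⟩ u' ⟨-, hu1', hu2'⟩
      rcases hu2 with rfl | ⟨h1, rfl⟩
      · rcases hu2' with h | ⟨h2, h⟩
        · exact Sym2.congr_right.1 h
        · exfalso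
          rcases Sym2.eq_iff.1 h with ⟨e1, -⟩ | ⟨e1, -⟩
          · exact hu1'.ne e1
          · exact hxt e1
      · rcases hu2' with h | ⟨h2, h⟩
        · exfalso
          rcases Sym2.eq_iff.1 h with ⟨e1, -⟩ | ⟨-, e1⟩
          · exact hu1.ne' e1
          · exact hxt e1.symm
        · rcases Sym2.eq_iff.1 h with ⟨e1, -⟩ | ⟨e1, -⟩
          · exact e1
          · exact absurd e1 h1
  · have hS := hσ x hxf
    have hcnt := hS.cnt
    set N := Finset.univ.filter fun u => G.Adj x u ∧ ¬ (Bad G t E x u ∧ σ x u = none) with hN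
    have c1 : dg G x ≤ N.card +
        (Finset.univ.filter fun y => Bad G t E x y ∧ σ x y = none).card := by
      unfold dg
      refine (Finset.card_le_card ?_).trans (Finset.card_union_le _ _)
      intro u hu
      have hu' := (Finset.mem_filter.1 hu).2
      rw [Finset.mem_union, Finset.mem_filter, Finset.mem_filter]
      by_cases h : Bad G t E x u ∧ σ x u = none
      · exact Or.inr ⟨Finset.mem_univ _, h⟩
      · exact Or.inl ⟨Finset.mem_univ _, hu', h⟩
    have c2 : N.card ≤ F.card := by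
      refine Finset.card_le_card_of_forall_subsingleton
        (fun u e => G.Adj x u ∧ Use G t x F (σ x) u e) ?_ ?_
      · intro u hu
        obtain ⟨hu', hu2⟩ := (Finset.mem_filter.1 hu).2
        by_cases hF : s(x, u) ∈ F
        · exact ⟨_, hF, hu', Use.own⟩
        obtain ⟨h1, h2, h3⟩ := hx u hu' hF
        have hut : u ≠ t := by
          rintro rfl
          exact absurd h1 (not_lt.2 (ht x))
        by_cases hun : G.Adj t u
        · exact ⟨_, h2 t (hht u hun) hxt.symm, hu', Use.tgt u hun (Or.inl ⟨hu', hF, rfl⟩)⟩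
        have huf : Far G t u := ⟨hut, hun⟩
        obtain ⟨m, hm⟩ := exists_home hu'.symm
        by_cases hmx : m = x
        · subst hmx
          have hb : Bad G t E m u := by
            refine ⟨hxf, huf, hu', hff _ _ hxf huf h1, fun b hb hbu => ?_⟩
            rcases (hm.2 b hbu.symm).eq_or_lt with rfl | h
            · exact le_rfl
            · exact (hff _ _ hxf hb h).le
          obtain ⟨a, ha⟩ : ∃ a, σ m u = some a := by
            cases h : σ m u with
            | none => exact absurd ⟨hb, h⟩ hu2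
            | some a => exact ⟨a, rfl⟩
          obtain ⟨-, hua, hta, hxa⟩ := hS.stage1 hun ha
          rcases h3 a ha with h4 | h4
          · exact ⟨_, h4, hu', Use.mix a huf h1.ne' hta⟩
          have h5 := h4 t (hht a hta)
          by_cases hma : G.Adj m a
          swap
          · exact ⟨_, h5, hu', Use.tgt a hta (Or.inr (Or.inl ⟨Or.inl hma, hun, ha⟩))⟩
          by_cases hmF : s(m, a) ∈ F
          · exact ⟨_, h5, hu', Use.tgt a hta (Or.inr (Or.inl ⟨Or.inr hmF, hun, ha⟩))⟩
          obtain ⟨-, h, hh⟩ := hxa hma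
          obtain ⟨-, -, hah, hth, hxh, -⟩ := hS.stage2 hta hh
          obtain ⟨-, -, h6⟩ := hx a hma hmF
          rcases h6 h hh with h7 | h7
          · exact ⟨_, h7, hu', Use.near a h hta hth hma hxh hun ha⟩
          · exact ⟨_, h7 t (hht h hth), hu', Use.tgt h hth
              (Or.inr (Or.inr ⟨hxh, a, hta, hun, ha, hh⟩))⟩
        · have hmx' : m < x := lt_of_le_of_ne (hm.2 _ hu'.symm) hmx
          have hmf : Far G t m := by
            refine ⟨?_, fun h => ?_⟩
            · rintro rfl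
              exact hun hm.1.symm
            · exact absurd hmx' (not_lt.2 (hfn x m hxf h).le)
          exact ⟨_, h2 m hm hmx, hu', Use.far m huf hmf hmx' h1⟩
      · rintro e - u ⟨-, hu1, hu2⟩ u' ⟨-, hu1', hu2'⟩
        exact hu2.unique hxf hS.inj hu2' hu1 hu1'
    omega

end Pool.Agent.IR
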