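import Pool.Agent.IR.Defs

/-!
# The priority pattern (MP_ed14c7_lc)

The nodes are linearly ordered and the target is the smallest one. A node which receives a packet
from a larger node (or in which the packet starts) sends it to its smallest alive neighbour if this
one is smaller than the node, and otherwise to the next alive neighbour in cyclic order. A node `v`
which receives a packet from a smaller node `q` sends it to its smallest neighbour `m` if `m ≠ q`
and this link is alive; otherwise to `σ q v` (if this is defined and alive), otherwise back to `q`.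
-/

open Finset

namespace Pool.Agent.IR

variable {V : Type*} [Fintype V] [LinearOrder V] (G : SimpleGraph V) (σ : V → V → Option V)

open Classical in
/-- the neighbours of `v` which are not in `D` -/
noncomputable def aliv (v : V) (D : Set V) : Finset V :=
  Finset.univ.filter fun w => G.Adj v w ∧ w ∉ D

omit [LinearOrder V] in
variable {G} in
theorem mem_aliv {v w : V} {D : Set V} : w ∈ aliv G v D ↔ G.Adj v w ∧ w ∉ D := by
  simp [aliv]

/-- the cyclic successor in a finite set -/
noncomputable def cyc (S : Finset V) (hS : S.Nonempty) (q : V) : V :=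
  if h : (S.filter (q < ·)).Nonempty then (S.filter (q < ·)).min' h else S.min' hS

omit [Fintype V] in
theorem cyc_mem (S : Finset V) (hS : S.Nonempty) (q : V) : cyc S hS q ∈ S := by
  unfold cyc
  split_ifs with h
  · exact (Finset.mem_filter.1 (Finset.min'_mem _ h)).1
  · exact Finset.min'_mem _ hS

omit [Fintype V] in
/-- a nonempty subset of `S` which is closed under the cyclic successor is all of `S` -/
theorem cyc_closed (S : Finset V) (hS : S.Nonempty) (T : Set V) (hne : ∃ u ∈ S, u ∈ T)
    (hT : ∀ u ∈ S, u ∈ T → cyc S hS u ∈ T) : ∀ u ∈ S, u ∈ T := by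
  classical
  -- the smallest element of `S` is in `T`
  have hmin : S.min' hS ∈ T := by
    obtain ⟨u, hu, huT⟩ := hne
    have hne' : (S.filter (· ∈ T)).Nonempty := ⟨u, Finset.mem_filter.2 ⟨hu, huT⟩⟩
    have hM := Finset.max'_mem _ hne'
    rw [Finset.mem_filter] at hM
    have h1 := hT _ hM.1 hM.2
    have h2 := cyc_mem S hS ((S.filter (· ∈ T)).max' hne')
    have h3 := Finset.le_max' _ _ (Finset.mem_filter.2 ⟨h2, h1⟩)
    unfold cyc at h3 h1
    split_ifs at h3 h1 with h
    · have h4 := Finset.min'_mem _ h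
      rw [Finset.mem_filter] at h4
      exact absurd h4.2 (not_lt.2 h3)
    · exact h1
  intro u hu
  by_contra huT
  have hne' : (S.filter (· ∉ T)).Nonempty := ⟨u, Finset.mem_filter.2 ⟨hu, huT⟩⟩
  have hb := Finset.min'_mem _ hne'
  set b := (S.filter (· ∉ T)).min' hne' with hbdef
  rw [Finset.mem_filter] at hb
  have hlt : S.min' hS < b := by
    refine lt_of_le_of_ne (Finset.min'_le _ _ hb.1) ?_
    rintro h
    rw [h] at hmin
    exact hb.2 hmin
  have hne2 : (S.filter (· < b)).Nonempty := ⟨_, Finset.mem_filter.2 ⟨Finset.min'_mem _ hS, hlt⟩⟩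
  have hc := Finset.max'_mem _ hne2
  set c := (S.filter (· < b)).max' hne2 with hcdef
  rw [Finset.mem_filter] at hc
  have hcT : c ∈ T := by
    by_contra hcT
    have := Finset.min'_le _ _ (Finset.mem_filter.2 ⟨hc.1, hcT⟩ : c ∈ S.filter (· ∉ T))
    exact absurd hc.2 (not_lt.2 this)
  have hcyc : cyc S hS c = b := by
    unfold cyc
    have hbm : b ∈ S.filter (c < ·) := Finset.mem_filter.2 ⟨hb.1, hc.2⟩
    rw [dif_pos ⟨b, hbm⟩]
    refine le_antisymm (Finset.min'_le _ _ hbm) ?_
    refine Finset.le_min' _ _ _ fun y hy => ?_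
    rw [Finset.mem_filter] at hy
    by_contra hlt'
    push Not at hlt'
    have := Finset.le_max' _ _ (Finset.mem_filter.2 ⟨hy.1, hlt'⟩ : y ∈ S.filter (· < b))
    exact absurd hy.2 (not_lt.2 this)
  have h5 := hT c hc.1 hcT
  rw [hcyc] at h5
  exact hb.2 h5

/-- `m` is the smallest neighbour of `v` -/
def IsHome (v m : V) : Prop := G.Adj v m ∧ ∀ w, G.Adj v w → m ≤ w

omit [Fintype V] in
variable {G} in
theorem IsHome.unique {v m m' : V} (h : IsHome G v m) (h' : IsHome G v m') : m = m' :=
  le_antisymm (h.2 _ h'.1) (h'.2 _ h.1)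

variable {G} in
theorem exists_home {v w : V} (h : G.Adj v w) : ∃ m, IsHome G v m := by
  classical
  have hne : (Finset.univ.filter (G.Adj v)).Nonempty := ⟨w, by simpa using h⟩
  refine ⟨(Finset.univ.filter (G.Adj v)).min' hne, ?_, fun u hu => ?_⟩
  · have := Finset.min'_mem _ hne
    simpa using this
  · exact Finset.min'_le _ _ (by simpa using hu)

open Classical in
/-- the next node (when there is an alive neighbour) -/
noncomputable def nx (v : V) (p : Option V) (D : Set V) (hS : (aliv G v D).Nonempty) : V :=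
  match p with
  | none => (aliv G v D).min' hS
  | some q =>
    if q < v ∧ q ∈ aliv G v D then
      if h : ∃ m ∈ aliv G v D, IsHome G v m ∧ m ≠ q then h.choose
      else if h : ∃ w ∈ aliv G v D, σ q v = some w then h.choose
      else q
    else if (aliv G v D).min' hS < v then (aliv G v D).min' hS
    else cyc (aliv G v D) hS q

theorem nx_mem (v : V) (p : Option V) (D : Set V) (hS : (aliv G v D).Nonempty) :
    nx G σ v p D hS ∈ aliv G v D := by
  unfold nx
  split
  · exact Finset.min'_mem _ hS
  · split_ifs with h1 h2 h3 h4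
    · exact h2.choose_spec.1
    · exact h3.choose_spec.1
    · exact h1.2
    · exact Finset.min'_mem _ hS
    · exact cyc_mem _ hS _

open Classical in
/-- the pattern -/
noncomputable def pat : Pattern G where
  next v p D := if hS : (aliv G v D).Nonempty then some (nx G σ v p D hS) else none
  alive := by
    intro v p D w h
    split_ifs at h with hS
    rw [Option.some.injEq] at h
    rw [← h]
    exact mem_aliv.1 (nx_mem G σ v p D hS)
  moves := by
    intro v p D w h1 h2
    have hS : (aliv G v D).Nonempty := ⟨w, mem_aliv.2 ⟨h1, h2⟩⟩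
    rw [dif_pos hS]
    exact Option.some_ne_none _

/-- the conditions on the second tests -/
structure Tests : Prop where
  adj : ∀ x u w, σ x u = some w → G.Adj u w
  up : ∀ x u w, σ x u = some w → u < w
  home : ∀ x u w, σ x u = some w → ∃ m, G.Adj w m ∧ m < x
  free : ∀ x u w, σ x u = some w → σ u w = none

variable {G σ}

/-- The main lemma: if the packet does not reach the node `t`, then there is a node `x`
whose links have all failed or lead to larger nodes `u` whose tests have failed. -/
theorem core (hσ : Tests G σ) {t : V} (F : Finset (Sym2 V)) (s : V)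
    (hn : ¬ Delivers (pat G σ) F s t) :
    ∃ x, x ≠ t ∧ ∀ u, G.Adj x u → s(x, u) ∉ F →
      x < u ∧ (∀ m, IsHome G u m → m ≠ x → s(u, m) ∈ F) ∧
      ∀ w, σ x u = some w → s(u, w) ∈ F ∨ ∀ m, IsHome G w m → s(w, m) ∈ F := by
  classical
  set W : ℕ → V × Option V := walk (pat G σ) F s with hW
  have hn' : ∀ n, (W n).1 ≠ t := fun n h => hn ⟨n, h⟩
  have hstep : ∀ n, W (n + 1) = step (pat G σ) F (W n) := fun n => rfl
  -- the walk is eventually periodic
  obtain ⟨i, j, hij, hWij⟩ : ∃ i j, i < j ∧ W i = W j := by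
    obtain ⟨a, b, hab, h⟩ := Finite.exists_ne_map_eq_of_infinite W
    rcases lt_or_gt_of_ne hab with h' | h'
    · exact ⟨a, b, h', h⟩
    · exact ⟨b, a, h', h.symm⟩
  let R : Set (V × Option V) := {a | ∃ n, i ≤ n ∧ W n = a}
  have hRt : ∀ a ∈ R, a.1 ≠ t := by
    rintro a ⟨n, -, rfl⟩
    exact hn' n
  have hRs : ∀ a ∈ R, step (pat G σ) F a ∈ R := by
    rintro a ⟨n, hn, rfl⟩
    exact ⟨n + 1, by omega, rfl⟩
  have hRp : ∀ a ∈ R, ∃ b ∈ R, step (pat G σ) F b = a := by
    rintro a ⟨n, hn, rfl⟩
    rcases Nat.lt_or_ge i n with h | h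
    · refine ⟨W (n - 1), ⟨n - 1, by omega, rfl⟩, ?_⟩
      rw [← hstep, show n - 1 + 1 = n by omega]
    · have hni : n = i := le_antisymm h hn
      refine ⟨W (j - 1), ⟨j - 1, by omega, rfl⟩, ?_⟩
      rw [← hstep, show j - 1 + 1 = j by omega, hni, hWij]
  -- a node without alive links
  by_cases hst : ∃ a ∈ R, ¬ (aliv G a.1 (failedAt F a.1)).Nonempty
  · obtain ⟨a, ha, hne⟩ := hst
    refine ⟨a.1, hRt a ha, fun u hu hF => ?_⟩
    exact absurd ⟨u, mem_aliv.2 ⟨hu, hF⟩⟩ hne
  push Not at hst
  -- the step at a state of `R`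
  have hnext : ∀ a (ha : a ∈ R), step (pat G σ) F a
      = (nx G σ a.1 a.2 (failedAt F a.1) (hst a ha), some a.1) := by
    intro a ha
    have h1 : (pat G σ).next a.1 a.2 (failedAt F a.1)
        = some (nx G σ a.1 a.2 (failedAt F a.1) (hst a ha)) := by
      show dite _ _ _ = _
      rw [dif_pos (hst a ha)]
    unfold step
    rw [h1]
  -- the smallest node of `R`
  obtain ⟨x, ⟨p0, hx⟩, hmin⟩ : ∃ x, (∃ p, (x, p) ∈ R) ∧ ∀ y p, (y, p) ∈ R → x ≤ y := by
    have hne : (Finset.univ.filter fun v : V => ∃ p, (v, p) ∈ R).Nonempty :=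
      ⟨(W i).1, by
        rw [Finset.mem_filter]
        exact ⟨Finset.mem_univ _, (W i).2, i, le_rfl, rfl⟩⟩
    refine ⟨_, (Finset.mem_filter.1 (Finset.min'_mem _ hne)).2, fun y p hy => ?_⟩
    exact Finset.min'_le _ _ (by rw [Finset.mem_filter]; exact ⟨Finset.mem_univ _, p, hy⟩)
  -- neighbours
  have hal : ∀ v w : V, w ∈ aliv G v (failedAt F v) ↔ G.Adj v w ∧ s(v, w) ∉ F := by
    intro v w
    rw [mem_aliv]; rfl
  have hsym : ∀ v w : V, w ∈ aliv G v (failedAt F v) ↔ v ∈ aliv G w (failedAt F w) := by
    intro v w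
    rw [hal, hal, G.adj_comm, Sym2.eq_swap]
  set S := aliv G x (failedAt F x) with hSdef
  have hS : S.Nonempty := hst (x, p0) hx
  -- arrivals at `x` come from larger nodes
  have harr : ∀ p, (x, p) ∈ R → ∃ v, p = some v ∧ v ∈ S ∧ x < v := by
    intro p hp
    obtain ⟨b, hb, hbs⟩ := hRp _ hp
    rw [hnext b hb] at hbs
    obtain ⟨h1, h2⟩ := Prod.mk.inj hbs
    have h3 : x ∈ aliv G b.1 (failedAt F b.1) := by
      rw [← h1]; exact nx_mem _ _ _ _ _ _
    have h4 : b.1 ∈ S := (hsym _ _).1 h3
    refine ⟨b.1, h2.symm, h4, ?_⟩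
    have h5 : x ≤ b.1 := hmin b.1 b.2 hb
    exact lt_of_le_of_ne h5 (((hal _ _).1 h4).1.ne)
  -- no alive smaller neighbours
  have hgt : ∀ u ∈ S, x < u := by
    intro u hu
    by_contra hux
    have hux' : u < x := lt_of_le_of_ne (not_lt.1 hux) (((hal _ _).1 hu).1.ne')
    obtain ⟨v, rfl, hv, hxv⟩ := harr p0 hx
    have h1 := hRs _ hx
    rw [hnext _ hx] at h1
    have h2 : nx G σ x (some v) (failedAt F x) (hst _ hx) < x := by
      unfold nx
      have hnv : ¬ (v < x ∧ v ∈ aliv G x (failedAt F x)) := fun h => absurd h.1 (not_lt.2 hxv.le)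
      have hm : (aliv G x (failedAt F x)).min' hS < x :=
        lt_of_le_of_lt (Finset.min'_le _ _ hu) hux'
      simp only [hnv, if_false, hm, if_true]
    exact absurd (hmin _ _ h1) (not_le.2 h2)
  have hsmin : ¬ S.min' hS < x := not_lt.2 (hgt _ (Finset.min'_mem _ hS)).le
  -- from `x` the packet goes to the cyclic successor
  have hask : ∀ v, (x, some v) ∈ R → (cyc S hS v, some x) ∈ R := by
    intro v hv
    obtain ⟨v', hv', hvS, hxv⟩ := harr _ hv
    rw [Option.some.injEq] at hv'
    subst hv'
    have h1 := hRs _ hv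
    rw [hnext _ hv] at h1
    have h2 : nx G σ x (some v) (failedAt F x) (hst _ hv) = cyc S hS v := by
      unfold nx
      have hnv : ¬ (v < x ∧ v ∈ aliv G x (failedAt F x)) := fun h => absurd h.1 (not_lt.2 hxv.le)
      simp only [hnv, if_false]
      rw [if_neg hsmin]
    rw [← h2]
    exact h1
  -- what happens at an asked node
  have htest : ∀ u ∈ S, (u, some x) ∈ R → (x, some u) ∈ R ∧
      (∀ m, IsHome G u m → m ≠ x → s(u, m) ∈ F) ∧
      ∀ w, σ x u = some w → s(u, w) ∈ F ∨ ∀ m, IsHome G w m → s(w, m) ∈ F := by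
    intro u hu huR
    have hxu : x < u := hgt u hu
    have hxu' : x ∈ aliv G u (failedAt F u) := (hsym _ _).1 hu
    have h1 := hRs _ huR
    rw [hnext _ huR] at h1
    have hcond : x < u ∧ x ∈ aliv G u (failedAt F u) := ⟨hxu, hxu'⟩
    -- the home link has failed
    have hhome : ¬ ∃ m ∈ aliv G u (failedAt F u), IsHome G u m ∧ m ≠ x := by
      intro h
      have h2 : nx G σ u (some x) (failedAt F u) (hst _ huR) = h.choose := by
        unfold nx
        simp only [hcond, and_self, if_true]
        rw [dif_pos h]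
      have h3 := h.choose_spec
      have h4 : h.choose ≤ x := h3.2.1.2 _ (((hal _ _).1 hxu').1)
      have h5 : h.choose < x := lt_of_le_of_ne h4 h3.2.2
      rw [← h2] at h5
      exact absurd (hmin _ _ h1) (not_le.2 h5)
    have hH : ∀ m, IsHome G u m → m ≠ x → s(u, m) ∈ F := by
      intro m hm hmx
      by_contra hF
      exact hhome ⟨m, (hal _ _).2 ⟨hm.1, hF⟩, hm, hmx⟩
    -- returning from `u` to `x`
    have hret : ∀ w, u < w → (u, some w) ∈ R → (x, some u) ∈ R := by
      intro w huw hwR
      have h2 := hRs _ hwR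
      rw [hnext _ hwR] at h2
      have hle : (aliv G u (failedAt F u)).min' (hst _ hwR) ≤ x := Finset.min'_le _ _ hxu'
      have h3 : nx G σ u (some w) (failedAt F u) (hst _ hwR)
          = (aliv G u (failedAt F u)).min' (hst _ hwR) := by
        unfold nx
        have hnv : ¬ (w < u ∧ w ∈ aliv G u (failedAt F u)) := fun h => absurd h.1 (not_lt.2 huw.le)
        simp only [hnv, if_false]
        rw [if_pos (lt_of_le_of_lt hle hxu)]
      rw [h3] at h2
      have h4 := hmin _ _ h2
      have h5 : (aliv G u (failedAt F u)).min' (hst _ hwR) = x := le_antisymm hle h4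
      rw [h5] at h2
      exact h2
    by_cases hs : ∃ w ∈ aliv G u (failedAt F u), σ x u = some w
    · have h2 : nx G σ u (some x) (failedAt F u) (hst _ huR) = hs.choose := by
        unfold nx
        simp only [hcond, and_self, if_true]
        rw [dif_neg hhome, dif_pos hs]
      obtain ⟨hw1, hw2⟩ := hs.choose_spec
      set w := hs.choose with hwdef
      rw [h2] at h1
      have huw : u < w := hσ.up _ _ _ hw2
      have huw' : u ∈ aliv G w (failedAt F w) := (hsym _ _).1 hw1
      obtain ⟨m0, hm0, hm0x⟩ := hσ.home _ _ _ hw2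
      obtain ⟨m, hm⟩ := exists_home hm0
      have hmx : m < x := lt_of_le_of_lt (hm.2 _ hm0) hm0x
      have hmu : m ≠ u := (hmx.trans hxu).ne
      have h3 := hRs _ h1
      rw [hnext _ h1] at h3
      have hcond' : u < w ∧ u ∈ aliv G w (failedAt F w) := ⟨huw, huw'⟩
      have hhome' : ¬ ∃ m ∈ aliv G w (failedAt F w), IsHome G w m ∧ m ≠ u := by
        intro h
        have h4 : nx G σ w (some u) (failedAt F w) (hst _ h1) = h.choose := by
          unfold nx
          simp only [hcond', and_self, if_true]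
          rw [dif_pos h]
        have h5 := h.choose_spec
        have h6 : h.choose = m := h5.2.1.unique hm
        rw [h4, h6] at h3
        exact absurd (hmin _ _ h3) (not_le.2 hmx)
      have hfree : σ u w = none := hσ.free _ _ _ hw2
      have hs' : ¬ ∃ w' ∈ aliv G w (failedAt F w), σ u w = some w' := by
        rintro ⟨w', -, h⟩
        rw [hfree] at h
        exact absurd h (by simp)
      have h4 : nx G σ w (some u) (failedAt F w) (hst _ h1) = u := by
        unfold nx
        simp only [hcond', and_self, if_true]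
        rw [dif_neg hhome', dif_neg hs']
      rw [h4] at h3
      refine ⟨hret w huw h3, hH, fun w' hw' => Or.inr fun m' hm' => ?_⟩
      rw [hw2, Option.some.injEq] at hw'
      rw [← hw'] at hm' ⊢
      have h7 : m' = m := hm'.unique hm
      rw [h7]
      by_contra hF
      exact hhome' ⟨m, (hal _ _).2 ⟨hm.1, hF⟩, hm, hmu⟩
    · have h2 : nx G σ u (some x) (failedAt F u) (hst _ huR) = x := by
        unfold nx
        simp only [hcond, and_self, if_true]
        rw [dif_neg hhome, dif_neg hs]
      rw [h2] at h1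
      refine ⟨h1, hH, fun w hw => Or.inl ?_⟩
      by_contra hF
      exact hs ⟨w, (hal _ _).2 ⟨hσ.adj _ _ _ hw, hF⟩, hw⟩
  -- all alive neighbours are asked
  have hall : ∀ u ∈ S, u ∈ {u | (u, some x) ∈ R} := by
    refine cyc_closed S hS _ ?_ ?_
    · obtain ⟨v, rfl, hv, -⟩ := harr p0 hx
      exact ⟨cyc S hS v, cyc_mem S hS v, hask v hx⟩
    · intro u hu huR
      exact hask u (htest u hu huR).1
  refine ⟨x, hRt _ hx, fun u hu hF => ?_⟩
  have huS : u ∈ S := (hal _ _).2 ⟨hu, hF⟩
  exact ⟨hgt u huS, (htest u huS (hall u huS)).2⟩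

end Pool.Agent.IR
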