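import Mathlib

/-!
# Forwarding patterns of local fast rerouting (MP_ed14c7_lc)
-/

namespace Pool.Agent.IR

/-- A forwarding pattern for the graph `G` (for a fixed target). `next v p D` is the neighbour to
which the node `v` sends a packet that has arrived from the neighbour `p` (`none` if the packet
starts at `v`), where `D` is the set of the neighbours of `v` whose link to `v` has failed. The
packet leaves through a link of `G` that has not failed, and it stays only if there is no such
link. -/
structure Pattern {V : Type*} (G : SimpleGraph V) where
  next : V → Option V → Set V → Option V
  alive : ∀ v p D w, next v p D = some w → G.Adj v w ∧ w ∉ D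
  moves : ∀ v p D w, G.Adj v w → w ∉ D → next v p D ≠ none

/-- The neighbours of `v` whose link to `v` has failed, `F` being the set of the failed links. -/
def failedAt {V : Type*} (F : Finset (Sym2 V)) (v : V) : Set V := {w | s(v, w) ∈ F}

/-- The packet moves from `(v, p)` (it is at `v` and has arrived from `p`) to the next node. -/
def step {V : Type*} {G : SimpleGraph V} (π : Pattern G) (F : Finset (Sym2 V)) (a : V × Option V) :
    V × Option V :=
  match π.next a.1 a.2 (failedAt F a.1) with
  | some w => (w, some a.1)
  | none => a

/-- The packet that starts at `s` is at the first component of `walk π F s n` after `n` steps. -/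
def walk {V : Type*} {G : SimpleGraph V} (π : Pattern G) (F : Finset (Sym2 V)) (s : V) :
    ℕ → V × Option V
  | 0 => (s, none)
  | n + 1 => step π F (walk π F s n)

/-- With the set `F` of failed links, the packet that starts at `s` reaches `t`. -/
def Delivers {V : Type*} {G : SimpleGraph V} (π : Pattern G) (F : Finset (Sym2 V)) (s t : V) :
    Prop :=
  ∃ n, (walk π F s n).1 = t

end Pool.Agent.IR
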