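import Mathlib

/-!
# Elementary computations for binomial random graphs (MP_ed14c7_lc)
-/

open Finset

set_option linter.unusedSectionVars false

namespace Pool.Agent.IR

section Prb

variable {V : Type} [Fintype V] [DecidableEq V]

/-- The probability of the graph `G` in the binomial random graph. -/
noncomputable def wt (p : ℝ) (G : SimpleGraph V) : ℝ :=
  p ^ G.edgeSet.ncard * (1 - p) ^ ((Nat.card V).choose 2 - G.edgeSet.ncard)

open Classical in
/-- The probability of the property `B` in the binomial random graph. -/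
noncomputable def prb (p : ℝ) (B : SimpleGraph V → Prop) : ℝ :=
  ∑ G : SimpleGraph V, if B G then wt p G else 0

/-- The property `B` does not depend on the pair `e`. -/
def Ins (e : Sym2 V) (B : SimpleGraph V → Prop) : Prop :=
  ∀ G G' : SimpleGraph V, (∀ e', e' ≠ e → (e' ∈ G.edgeSet ↔ e' ∈ G'.edgeSet)) → B G → B G'

theorem wt_nonneg {p : ℝ} (h0 : 0 ≤ p) (h1 : p ≤ 1) (G : SimpleGraph V) : 0 ≤ wt p G :=
  mul_nonneg (pow_nonneg h0 _) (pow_nonneg (by linarith) _)

theorem ncard_le (G : SimpleGraph V) : G.edgeSet.ncard ≤ (Nat.card V).choose 2 := by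
  classical
  rw [Nat.card_eq_fintype_card, ← SimpleGraph.coe_edgeFinset, Set.ncard_coe_finset]
  exact SimpleGraph.card_edgeFinset_le_card_choose_two

theorem wt_delete {p : ℝ} {G : SimpleGraph V} {e : Sym2 V} (he : e ∈ G.edgeSet) :
    (1 - p) * wt p G = p * wt p (G.deleteEdges {e}) := by
  have h1 : (G.deleteEdges {e}).edgeSet.ncard + 1 = G.edgeSet.ncard := by
    rw [SimpleGraph.edgeSet_deleteEdges]
    exact Set.ncard_sdiff_singleton_add_one he (Set.toFinite _)
  have h2 := ncard_le G
  unfold wt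
  set N := (Nat.card V).choose 2
  set k := (G.deleteEdges {e}).edgeSet.ncard
  rw [← h1] at h2 ⊢
  have h3 : N - k = (N - (k + 1)) + 1 := by omega
  rw [h3, pow_succ, pow_succ]
  ring

open Classical in
/-- The graphs with the property `B`. -/
noncomputable def fl (B : SimpleGraph V → Prop) : Finset (SimpleGraph V) :=
  Finset.univ.filter fun G => B G

theorem mem_fl {B : SimpleGraph V → Prop} {G : SimpleGraph V} : G ∈ fl B ↔ B G := by
  classical
  unfold fl
  rw [Finset.mem_filter]
  exact ⟨fun h => h.2, fun h => ⟨Finset.mem_univ _, h⟩⟩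

theorem prb_eq_sum (p : ℝ) (B : SimpleGraph V → Prop) :
    prb p B = ∑ G ∈ fl B, wt p G := by
  unfold prb fl
  rw [Finset.sum_filter]

theorem prb_edge_aux (p : ℝ) {e : Sym2 V} (he : ¬ e.IsDiag) {B : SimpleGraph V → Prop}
    (hB : Ins e B) : (1 - p) * prb p (fun G => B G ∧ e ∈ G.edgeSet) =
      p * prb p (fun G => B G ∧ e ∉ G.edgeSet) := by
  classical
  rw [prb_eq_sum, prb_eq_sum, Finset.mul_sum, Finset.mul_sum]
  have hadd : ∀ G : SimpleGraph V, (G ⊔ SimpleGraph.fromEdgeSet {e}).edgeSet =
      G.edgeSet ∪ {e} := by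
    intro G
    rw [SimpleGraph.edgeSet_sup, SimpleGraph.edgeSet_fromEdgeSet]
    congr 1
    ext e'
    constructor
    · intro h
      exact h.1
    · intro h
      refine ⟨h, fun h' => he ?_⟩
      rw [Set.mem_singleton_iff] at h
      rw [← h]
      exact h'
  refine Finset.sum_nbij' (fun G => G.deleteEdges {e})
    (fun G => G ⊔ SimpleGraph.fromEdgeSet {e}) ?_ ?_ ?_ ?_ ?_
  · intro G hG
    rw [mem_fl] at hG ⊢
    refine ⟨hB G _ ?_ hG.1, ?_⟩
    · intro e' he'
      rw [SimpleGraph.edgeSet_deleteEdges, Set.mem_sdiff, Set.mem_singleton_iff]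
      exact ⟨fun h => ⟨h, he'⟩, fun h => h.1⟩
    · rw [SimpleGraph.edgeSet_deleteEdges, Set.mem_sdiff]
      exact fun h => h.2 rfl
  · intro G hG
    rw [mem_fl] at hG ⊢
    refine ⟨hB G _ ?_ hG.1, ?_⟩
    · intro e' he'
      rw [hadd, Set.mem_union, Set.mem_singleton_iff]
      exact ⟨fun h => Or.inl h, fun h => h.resolve_right he'⟩
    · rw [hadd]
      exact Or.inr rfl
  · intro G hG
    rw [mem_fl] at hG
    apply SimpleGraph.edgeSet_injective
    rw [hadd, SimpleGraph.edgeSet_deleteEdges]
    exact Set.sdiff_union_of_subset (Set.singleton_subset_iff.2 hG.2)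
  · intro G hG
    rw [mem_fl] at hG
    apply SimpleGraph.edgeSet_injective
    rw [SimpleGraph.edgeSet_deleteEdges, hadd]
    ext e'
    rw [Set.mem_sdiff, Set.mem_union, Set.mem_singleton_iff]
    constructor
    · intro h
      exact h.1.resolve_right h.2
    · intro h
      refine ⟨Or.inl h, ?_⟩
      rintro rfl
      exact hG.2 h
  · intro G hG
    rw [mem_fl] at hG
    exact wt_delete hG.2

theorem prb_split (p : ℝ) (B C : SimpleGraph V → Prop) :
    prb p (fun G => B G ∧ C G) + prb p (fun G => B G ∧ ¬ C G) = prb p B := by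
  classical
  unfold prb
  rw [← Finset.sum_add_distrib]
  refine Finset.sum_congr rfl fun G _ => ?_
  by_cases h1 : B G <;> by_cases h2 : C G <;> simp [h1, h2]

theorem prb_edge (p : ℝ) {e : Sym2 V} (he : ¬ e.IsDiag) {B : SimpleGraph V → Prop}
    (hB : Ins e B) : prb p (fun G => B G ∧ e ∈ G.edgeSet) = p * prb p B := by
  have h1 := prb_edge_aux p he hB
  have h2 := prb_split p B (fun G => e ∈ G.edgeSet)
  rw [← h2]
  linear_combination h1

theorem prb_not_edge (p : ℝ) {e : Sym2 V} (he : ¬ e.IsDiag) {B : SimpleGraph V → Prop}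
    (hB : Ins e B) : prb p (fun G => B G ∧ e ∉ G.edgeSet) = (1 - p) * prb p B := by
  have h1 := prb_edge_aux p he hB
  have h2 := prb_split p B (fun G => e ∈ G.edgeSet)
  rw [← h2]
  linear_combination -h1

theorem prb_mono {p : ℝ} (h0 : 0 ≤ p) (h1 : p ≤ 1) {B C : SimpleGraph V → Prop}
    (h : ∀ G, B G → C G) : prb p B ≤ prb p C := by
  classical
  unfold prb
  refine Finset.sum_le_sum fun G _ => ?_
  by_cases h2 : B G
  · rw [if_pos h2, if_pos (h G h2)]
  · rw [if_neg h2]
    split_ifs
    · exact wt_nonneg h0 h1 G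
    · exact le_rfl

theorem prb_nonneg {p : ℝ} (h0 : 0 ≤ p) (h1 : p ≤ 1) (B : SimpleGraph V → Prop) :
    0 ≤ prb p B := by
  classical
  unfold prb
  refine Finset.sum_nonneg fun G _ => ?_
  split_ifs
  · exact wt_nonneg h0 h1 G
  · exact le_rfl

theorem prb_union {p : ℝ} (h0 : 0 ≤ p) (h1 : p ≤ 1) {ι : Type*} (s : Finset ι)
    {B : SimpleGraph V → Prop} {C : ι → SimpleGraph V → Prop}
    (h : ∀ G, B G → ∃ i ∈ s, C i G) : prb p B ≤ ∑ i ∈ s, prb p (C i) := by
  classical
  unfold prb
  rw [Finset.sum_comm]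
  refine Finset.sum_le_sum fun G _ => ?_
  by_cases h2 : B G
  · obtain ⟨i, hi, hC⟩ := h G h2
    rw [if_pos h2]
    have h3 : wt p G = if C i G then wt p G else 0 := by rw [if_pos hC]
    refine h3.le.trans (Finset.single_le_sum (f := fun i => if C i G then wt p G else 0) ?_ hi)
    intro j _
    split_ifs
    · exact wt_nonneg h0 h1 G
    · exact le_rfl
  · rw [if_neg h2]
    refine Finset.sum_nonneg fun i _ => ?_
    split_ifs
    · exact wt_nonneg h0 h1 G
    · exact le_rfl

theorem prb_congr (p : ℝ) {B C : SimpleGraph V → Prop} (h : ∀ G, B G ↔ C G) :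
    prb p B = prb p C := by
  have : B = C := funext fun G => propext (h G)
  rw [this]

/-- The connection with the binomial random graphs of Mathlib. -/
theorem binomial_eq (q : unitInterval) (B : SimpleGraph V → Prop) :
    (SimpleGraph.binomialRandom V q).real {G | B G} = prb (q : ℝ) B := by
  classical
  have hm : MeasurableSingletonClass (SimpleGraph V) := by
    refine ⟨fun G => ?_⟩
    have h1 : ({G} : Set (SimpleGraph V)) = SimpleGraph.edgeSet ⁻¹' {G.edgeSet} := by
      ext G'
      rw [Set.mem_singleton_iff, Set.mem_preimage, Set.mem_singleton_iff]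
      exact ⟨fun h => by rw [h], fun h => SimpleGraph.edgeSet_injective h⟩
    rw [h1]
    exact SimpleGraph.measurable_edgeSet (measurableSet_singleton _)
  have h1 : ({G | B G} : Set (SimpleGraph V)) =
      ((Finset.univ.filter fun G => B G : Finset (SimpleGraph V)) : Set (SimpleGraph V)) := by
    ext G
    simp
  rw [h1, ← MeasureTheory.sum_measureReal_singleton, prb, ← Finset.sum_filter]
  refine Finset.sum_congr rfl fun G _ => ?_
  rw [MeasureTheory.measureReal_def, SimpleGraph.binomialRandom_singleton, wt]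
  simp

theorem prb_true {p : ℝ} (h0 : 0 ≤ p) (h1 : p ≤ 1) :
    prb p (fun _ : SimpleGraph V => True) = 1 := by
  have h := binomial_eq (V := V) (⟨p, h0, h1⟩ : unitInterval) (fun _ => True)
  have h2 : ({_G | True} : Set (SimpleGraph V)) = Set.univ := by
    ext
    simp
  rw [h2, MeasureTheory.probReal_univ] at h
  exact h.symm

end Prb

end Pool.Agent.IR
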