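import Pool.Agent.IR.Gnp

/-!
# Events in binomial random graphs (MP_ed14c7_lc)
-/

open Finset

set_option linter.unusedSectionVars false

namespace Pool.Agent.IR

section Prb

variable {V : Type} [Fintype V] [DecidableEq V]

theorem ins_and {e : Sym2 V} {B C : SimpleGraph V → Prop} (hB : Ins e B) (hC : Ins e C) :
    Ins e (fun G => B G ∧ C G) :=
  fun G G' h hG => ⟨hB G G' h hG.1, hC G G' h hG.2⟩

theorem ins_not {e : Sym2 V} {B : SimpleGraph V → Prop} (hB : Ins e B) :
    Ins e (fun G => ¬ B G) :=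
  fun G G' h hG hG' => hG (hB G' G (fun e' he' => (h e' he').symm) hG')

theorem ins_mem {e e' : Sym2 V} (h : e' ≠ e) : Ins e (fun G : SimpleGraph V => e' ∈ G.edgeSet) :=
  fun _ _ hG h1 => (hG e' h).1 h1

theorem ins_true {e : Sym2 V} : Ins e (fun _ : SimpleGraph V => True) :=
  fun _ _ _ _ => trivial

theorem ins_forall {ι : Type*} {e : Sym2 V} {s : Finset ι} {B : ι → SimpleGraph V → Prop}
    (h : ∀ i ∈ s, Ins e (B i)) : Ins e (fun G => ∀ i ∈ s, B i G) :=
  fun G G' hG h1 i hi => h i hi G G' hG (h1 i hi)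

theorem ins_exists {ι : Type*} {e : Sym2 V} {s : Finset ι} {B : ι → SimpleGraph V → Prop}
    (h : ∀ i ∈ s, Ins e (B i)) : Ins e (fun G => ∃ i ∈ s, B i G) := by
  rintro G G' hG ⟨i, hi, h1⟩
  exact ⟨i, hi, h i hi G G' hG h1⟩

/-- None of the pairs of `D` is an edge. -/
theorem prb_no_edges (p : ℝ) (D : Finset (Sym2 V)) {B : SimpleGraph V → Prop}
    (hD : ∀ e ∈ D, ¬ e.IsDiag) (hB : ∀ e ∈ D, Ins e B) :
    prb p (fun G => B G ∧ ∀ e ∈ D, e ∉ G.edgeSet) = (1 - p) ^ D.card * prb p B := by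
  classical
  induction D using Finset.induction_on with
  | empty =>
    rw [Finset.card_empty, pow_zero, one_mul]
    exact prb_congr p fun G => ⟨fun h => h.1, fun h => ⟨h, fun e he => absurd he (by simp)⟩⟩
  | insert e D he ih =>
    have h1 := ih (fun e' he' => hD e' (Finset.mem_insert_of_mem he'))
      (fun e' he' => hB e' (Finset.mem_insert_of_mem he'))
    have h2 : Ins e (fun G => B G ∧ ∀ e' ∈ D, e' ∉ G.edgeSet) := by
      refine ins_and (hB e (Finset.mem_insert_self e D)) (ins_forall fun e' he' => ins_not ?_)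
      exact ins_mem fun h => he (h ▸ he')
    have h3 := prb_not_edge p (hD e (Finset.mem_insert_self e D)) h2
    rw [h1] at h3
    rw [Finset.card_insert_of_notMem he, pow_succ, mul_comm _ (1 - p), mul_assoc, ← h3]
    refine prb_congr p fun G => ?_
    constructor
    · rintro ⟨g1, g2⟩
      exact ⟨⟨g1, fun e' he' => g2 e' (Finset.mem_insert_of_mem he')⟩,
        g2 e (Finset.mem_insert_self e D)⟩
    · rintro ⟨⟨g1, g2⟩, g3⟩
      refine ⟨g1, fun e' he' => ?_⟩
      rcases Finset.mem_insert.1 he' with rfl | h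
      · exact g3
      · exact g2 e' h

/-- `v` is adjacent to `a`, not to `b`, and to an element of `A`. -/
def Yv (a b : V) (A : Finset V) (v : V) (G : SimpleGraph V) : Prop :=
  G.Adj v a ∧ ¬ G.Adj v b ∧ ∃ c ∈ A, G.Adj v c

theorem sne {v c c' : V} (h : c ≠ c') : s(v, c) ≠ s(v, c') := by
  intro h'
  exact h (Sym2.congr_right.1 h')

/-- `1 - P(Yv)`. -/
noncomputable def qq (p : ℝ) (m : ℕ) : ℝ := 1 - p * (1 - p) * (1 - (1 - p) ^ m)

theorem prb_not_Yv (p : ℝ) {a b v : V} {A : Finset V} (hab : a ≠ b) (ha : a ∉ A) (hb : b ∉ A)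
    (hva : v ≠ a) (hvb : v ≠ b) (hvA : v ∉ A) {B : SimpleGraph V → Prop}
    (hBa : Ins s(v, a) B) (hBb : Ins s(v, b) B) (hBA : ∀ c ∈ A, Ins s(v, c) B) :
    prb p (fun G => B G ∧ ¬ Yv a b A v G) = qq p A.card * prb p B := by
  classical
  have h1 := prb_edge p (e := s(v, a)) (fun h => hva (Sym2.mk_isDiag_iff.1 h)) hBa
  have i1 : Ins s(v, b) (fun G => B G ∧ s(v, a) ∈ G.edgeSet) := ins_and hBb (ins_mem (sne hab))
  have h2 := prb_not_edge p (e := s(v, b)) (fun h => hvb (Sym2.mk_isDiag_iff.1 h)) i1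
  have hDc : (A.image fun c => s(v, c)).card = A.card := by
    apply Finset.card_image_of_injective
    intro c c' h
    exact Sym2.congr_right.1 h
  have h3 := prb_no_edges p (A.image fun c => s(v, c))
    (B := fun G => (B G ∧ s(v, a) ∈ G.edgeSet) ∧ s(v, b) ∉ G.edgeSet) (by
      intro e he
      obtain ⟨c, hc, rfl⟩ := Finset.mem_image.1 he
      intro h
      exact hvA ((Sym2.mk_isDiag_iff.1 h) ▸ hc)) (by
      intro e he
      obtain ⟨c, hc, rfl⟩ := Finset.mem_image.1 he
      refine ins_and (ins_and (hBA c hc) (ins_mem (sne ?_))) (ins_not (ins_mem (sne ?_)))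
      · rintro rfl
        exact ha hc
      · rintro rfl
        exact hb hc)
  rw [hDc, h2, h1] at h3
  have h4 := prb_split p B (fun G => Yv a b A v G)
  have h5 := prb_split p (fun G => (B G ∧ s(v, a) ∈ G.edgeSet) ∧ s(v, b) ∉ G.edgeSet)
    (fun G => ∀ e ∈ A.image fun c => s(v, c), e ∉ G.edgeSet)
  rw [h3, h2, h1] at h5
  have h6 : prb p (fun G => B G ∧ Yv a b A v G) =
      prb p (fun G => ((B G ∧ s(v, a) ∈ G.edgeSet) ∧ s(v, b) ∉ G.edgeSet) ∧
        ¬ ∀ e ∈ A.image fun c => s(v, c), e ∉ G.edgeSet) := by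
    refine prb_congr p fun G => ?_
    unfold Yv
    constructor
    · rintro ⟨g1, g2, g3, c, hc, g4⟩
      refine ⟨⟨⟨g1, g2⟩, g3⟩, fun h => ?_⟩
      exact h s(v, c) (Finset.mem_image_of_mem _ hc) g4
    · rintro ⟨⟨⟨g1, g2⟩, g3⟩, g4⟩
      push Not at g4
      obtain ⟨e, he, g5⟩ := g4
      obtain ⟨c, hc, rfl⟩ := Finset.mem_image.1 he
      exact ⟨g1, g2, g3, c, hc, g5⟩
  rw [← h6] at h5
  unfold qq
  linear_combination h4 - h5

theorem prb_forall_not_Yv {p : ℝ} (h0 : 0 ≤ p) (h1 : p ≤ 1) {a b : V} {A : Finset V}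
    (hab : a ≠ b) (ha : a ∉ A) (hb : b ∉ A) (W : Finset V) (hWa : a ∉ W) (hWb : b ∉ W)
    (hWA : Disjoint W A) :
    prb p (fun G => ∀ v ∈ W, ¬ Yv a b A v G) = qq p A.card ^ W.card := by
  classical
  induction W using Finset.induction_on with
  | empty =>
    rw [Finset.card_empty, pow_zero, ← prb_true (V := V) h0 h1]
    exact prb_congr p fun G => ⟨fun _ => trivial, fun _ v hv => absurd hv (by simp)⟩
  | insert v W hv ih =>
    rw [Finset.mem_insert] at hWa hWb
    push Not at hWa hWb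
    have hvA : v ∉ A := Finset.disjoint_left.1 hWA (Finset.mem_insert_self v W)
    have hWA' : Disjoint W A :=
      Finset.disjoint_of_subset_left (Finset.subset_insert v W) hWA
    have h2 := ih hWa.2 hWb.2 hWA'
    -- the pairs at `v`
    have key : ∀ c, (∀ w ∈ W, w ≠ c) → Ins s(v, c) (fun G => ∀ w ∈ W, ¬ Yv a b A w G) := by
      intro c hc
      refine ins_forall fun w hw => ins_not ?_
      have hwv : w ≠ v := by
        rintro rfl
        exact hv hw
      have hne : ∀ c', s(w, c') ≠ s(v, c) := by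
        intro c' h
        rw [Sym2.eq_iff] at h
        rcases h with h | h
        · exact hwv h.1
        · exact hc w hw h.1
      intro G G' hG hY
      obtain ⟨g1, g2, c', hc', g3⟩ := hY
      refine ⟨(hG _ (hne a)).1 g1, fun g => g2 ((hG _ (hne b)).2 g), c', hc',
        (hG _ (hne c')).1 g3⟩
    have h3 := prb_not_Yv p hab ha hb (Ne.symm hWa.1) (Ne.symm hWb.1) hvA
      (key a fun w hw h => hWa.2 (h ▸ hw)) (key b fun w hw h => hWb.2 (h ▸ hw))
      (fun c hc => key c fun w hw h => Finset.disjoint_left.1 hWA' hw (h ▸ hc))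
    rw [h2] at h3
    rw [Finset.card_insert_of_notMem hv, pow_succ, mul_comm, ← h3]
    refine prb_congr p fun G => ?_
    constructor
    · intro g
      exact ⟨fun w hw => g w (Finset.mem_insert_of_mem hw), g v (Finset.mem_insert_self v W)⟩
    · rintro ⟨g1, g2⟩ w hw
      rcases Finset.mem_insert.1 hw with rfl | h
      · exact g2
      · exact g1 w h

/-- There is no edge between two disjoint sets. -/
theorem prb_no_between {p : ℝ} (h0 : 0 ≤ p) (h1 : p ≤ 1) (S T : Finset V)
    (hST : Disjoint S T) :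
    prb p (fun G => ∀ a ∈ S, ∀ b ∈ T, ¬ G.Adj a b) = (1 - p) ^ (S.card * T.card) := by
  classical
  have hinj : Set.InjOn (fun x : V × V => s(x.1, x.2)) ((S ×ˢ T : Finset (V × V)) : Set (V × V)) := by
    rintro ⟨a, b⟩ h ⟨a', b'⟩ h' he
    rw [Finset.mem_coe, Finset.mem_product] at h h'
    have he' : s(a, b) = s(a', b') := he
    rw [Sym2.eq_iff] at he'
    rcases he' with ⟨rfl, rfl⟩ | ⟨rfl, rfl⟩
    · rfl
    · exact absurd h'.2 (Finset.disjoint_left.1 hST h.1)
  have hc : ((S ×ˢ T).image fun x : V × V => s(x.1, x.2)).card = S.card * T.card := by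
    rw [Finset.card_image_of_injOn hinj, Finset.card_product]
  have h2 := prb_no_edges p ((S ×ˢ T).image fun x : V × V => s(x.1, x.2))
    (B := fun _ => True) (by
      intro e he
      obtain ⟨x, hx, rfl⟩ := Finset.mem_image.1 he
      rw [Finset.mem_product] at hx
      intro h
      have h3 : x.1 = x.2 := Sym2.mk_isDiag_iff.1 h
      exact Finset.disjoint_left.1 hST hx.1 (h3 ▸ hx.2)) (fun e _ => ins_true)
  rw [hc, prb_true h0 h1, mul_one] at h2
  rw [← h2]
  refine prb_congr p fun G => ?_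
  constructor
  · intro g
    refine ⟨trivial, fun e he => ?_⟩
    obtain ⟨x, hx, rfl⟩ := Finset.mem_image.1 he
    rw [Finset.mem_product] at hx
    exact g x.1 hx.1 x.2 hx.2
  · rintro ⟨-, g⟩ a ha b hb hab
    exact g s(a, b) (Finset.mem_image.2 ⟨(a, b), Finset.mem_product.2 ⟨ha, hb⟩, rfl⟩) hab

end Prb

end Pool.Agent.IR
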