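import Pool.Agent.IR.GnpB

/-!
# Union bounds for binomial random graphs (MP_ed14c7_lc)
-/

open Finset

set_option linter.unusedSectionVars false

namespace Pool.Agent.IR

section Prb

variable {V : Type} [Fintype V] [DecidableEq V]

/-- Every two disjoint sets of `s` nodes are joined by an edge. -/
def E1 (s : ℕ) (G : SimpleGraph V) : Prop :=
  ∀ S T : Finset V, Disjoint S T → S.card = s → T.card = s → ∃ a ∈ S, ∃ b ∈ T, G.Adj a b

/-- The condition on small sets. -/
def E2 (s : ℕ) (G : SimpleGraph V) : Prop :=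
  ∀ a b : V, a ≠ b → ∀ A : Finset V, a ∉ A → b ∉ A → A.card < s →
    A.card ≤ Nat.card {v : V // G.Adj v a ∧ ¬ G.Adj v b ∧ v ≠ b ∧ ∃ c ∈ A, G.Adj v c}

theorem prb_not_E1 {p : ℝ} (h0 : 0 ≤ p) (h1 : p ≤ 1) (s : ℕ) :
    prb p (fun G : SimpleGraph V => ¬ E1 s G) ≤
      ((Fintype.card V).choose s : ℝ) ^ 2 * (1 - p) ^ (s * s) := by
  classical
  set I := ((powersetCard s (univ : Finset V)) ×ˢ (powersetCard s (univ : Finset V))).filter
    (fun x => Disjoint x.1 x.2) with hI
  have h2 : prb p (fun G : SimpleGraph V => ¬ E1 s G) ≤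
      ∑ x ∈ I, prb p (fun G => ∀ a ∈ x.1, ∀ b ∈ x.2, ¬ G.Adj a b) := by
    refine prb_union h0 h1 I fun G hG => ?_
    unfold E1 at hG
    push Not at hG
    obtain ⟨S, T, hST, hS, hT, h⟩ := hG
    refine ⟨(S, T), ?_, h⟩
    rw [hI, mem_filter, mem_product, mem_powersetCard, mem_powersetCard]
    exact ⟨⟨⟨subset_univ _, hS⟩, subset_univ _, hT⟩, hST⟩
  refine h2.trans ?_
  have h3 : ∀ x ∈ I, prb p (fun G => ∀ a ∈ x.1, ∀ b ∈ x.2, ¬ G.Adj a b) =
      (1 - p) ^ (s * s) := by
    intro x hx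
    rw [hI, mem_filter, mem_product, mem_powersetCard, mem_powersetCard] at hx
    rw [prb_no_between h0 h1 x.1 x.2 hx.2, hx.1.1.2, hx.1.2.2]
  rw [Finset.sum_congr rfl h3, Finset.sum_const, nsmul_eq_mul]
  refine mul_le_mul_of_nonneg_right ?_ (pow_nonneg (by linarith) _)
  have h4 : I.card ≤ (Fintype.card V).choose s * (Fintype.card V).choose s := by
    refine (Finset.card_filter_le _ _).trans ?_
    rw [card_product, card_powersetCard, card_univ]
  have h5 : (I.card : ℝ) ≤ (((Fintype.card V).choose s * (Fintype.card V).choose s : ℕ) : ℝ) := by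
    exact_mod_cast h4
  refine h5.trans (le_of_eq ?_)
  push_cast
  ring

theorem qq_nonneg {p : ℝ} (h0 : 0 ≤ p) (h1 : p ≤ 1) (m : ℕ) : 0 ≤ qq p m := by
  unfold qq
  have h2 : 0 ≤ (1 - p) ^ m := pow_nonneg (by linarith) m
  have h3 : (1 - p) ^ m ≤ 1 := pow_le_one₀ (by linarith) (by linarith)
  have h4 : p * (1 - p) * (1 - (1 - p) ^ m) ≤ 1 * 1 := by
    refine mul_le_mul ?_ (by linarith) (by linarith) zero_le_one
    nlinarith
  linarith

theorem qq_le_one {p : ℝ} (h0 : 0 ≤ p) (h1 : p ≤ 1) (m : ℕ) : qq p m ≤ 1 := by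
  unfold qq
  have h3 : (1 - p) ^ m ≤ 1 := pow_le_one₀ (by linarith) (by linarith)
  have h4 : 0 ≤ p * (1 - p) * (1 - (1 - p) ^ m) :=
    mul_nonneg (mul_nonneg h0 (by linarith)) (by linarith)
  linarith

/-- The bad event for sets of `m` nodes. -/
def BadS (m : ℕ) (G : SimpleGraph V) : Prop :=
  ∃ a b : V, ∃ A B : Finset V, a ≠ b ∧ a ∉ A ∧ b ∉ A ∧ A.card = m ∧ B.card = m ∧
    ∀ v, v ∉ A → v ∉ B → v ≠ a → v ≠ b → ¬ Yv a b A v G

theorem bad_of_not_E2 {s : ℕ} {G : SimpleGraph V} (h : ¬ E2 s G) :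
    ∃ m ∈ Finset.Ico 1 s, BadS m G := by
  classical
  unfold E2 at h
  push Not at h
  obtain ⟨a, b, hab, A, ha, hb, hA, h⟩ := h
  refine ⟨A.card, Finset.mem_Ico.2 ⟨by omega, hA⟩, a, b, A, ?_⟩
  rw [Nat.card_eq_fintype_card, Fintype.card_subtype] at h
  obtain ⟨B, hB1, hB2⟩ := Finset.exists_superset_card_eq h.le (Finset.card_le_univ A)
  refine ⟨B, hab, ha, hb, rfl, hB2, ?_⟩
  intro v hvA hvB hva hvb hY
  apply hvB
  apply hB1
  rw [mem_filter]
  exact ⟨mem_univ _, hY.1, hY.2.1, hvb, hY.2.2⟩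

theorem prb_BadS {p : ℝ} (h0 : 0 ≤ p) (h1 : p ≤ 1) (m : ℕ) :
    prb p (fun G : SimpleGraph V => BadS m G) ≤
      (Fintype.card V : ℝ) ^ 2 * ((Fintype.card V).choose m : ℝ) ^ 2 *
        qq p m ^ (Fintype.card V - 2 * m - 2) := by
  classical
  set I := (((univ : Finset V) ×ˢ (univ : Finset V)) ×ˢ
    ((powersetCard m (univ : Finset V)) ×ˢ (powersetCard m (univ : Finset V)))).filter
    (fun x => x.1.1 ≠ x.1.2 ∧ x.1.1 ∉ x.2.1 ∧ x.1.2 ∉ x.2.1) with hI
  have h2 : prb p (fun G : SimpleGraph V => BadS m G) ≤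
      ∑ x ∈ I, prb p (fun G => ∀ v ∈ univ \ (insert x.1.1 (insert x.1.2 (x.2.1 ∪ x.2.2))),
        ¬ Yv x.1.1 x.1.2 x.2.1 v G) := by
    refine prb_union h0 h1 I fun G hG => ?_
    obtain ⟨a, b, A, B, hab, ha, hb, hA, hB, h⟩ := hG
    refine ⟨((a, b), (A, B)), ?_, ?_⟩
    · rw [hI, mem_filter, mem_product, mem_product, mem_product, mem_powersetCard,
        mem_powersetCard]
      exact ⟨⟨⟨mem_univ _, mem_univ _⟩, ⟨subset_univ _, hA⟩, subset_univ _, hB⟩, hab, ha, hb⟩
    · intro v hv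
      rw [mem_sdiff, mem_insert, mem_insert, mem_union] at hv
      push Not at hv
      exact h v hv.2.2.2.1 hv.2.2.2.2 hv.2.1 hv.2.2.1
  refine h2.trans ?_
  have h3 : ∀ x ∈ I, prb p (fun G => ∀ v ∈ univ \
      (insert x.1.1 (insert x.1.2 (x.2.1 ∪ x.2.2))), ¬ Yv x.1.1 x.1.2 x.2.1 v G) ≤
      qq p m ^ (Fintype.card V - 2 * m - 2) := by
    intro x hx
    rw [hI, mem_filter, mem_product, mem_product, mem_product, mem_powersetCard,
      mem_powersetCard] at hx
    obtain ⟨⟨-, ⟨-, hA⟩, -, hB⟩, hab, ha, hb⟩ := hx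
    rw [prb_forall_not_Yv h0 h1 hab ha hb, hA]
    · refine pow_le_pow_of_le_one (qq_nonneg h0 h1 m) (qq_le_one h0 h1 m) ?_
      rw [Finset.card_sdiff_of_subset (subset_univ _), card_univ]
      have h4 := Finset.card_insert_le x.1.1 (insert x.1.2 (x.2.1 ∪ x.2.2))
      have h5 := Finset.card_insert_le x.1.2 (x.2.1 ∪ x.2.2)
      have h6 := Finset.card_union_le x.2.1 x.2.2
      omega
    · rw [mem_sdiff]
      exact fun h => h.2 (mem_insert_self _ _)
    · rw [mem_sdiff]
      exact fun h => h.2 (mem_insert_of_mem (mem_insert_self _ _))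
    · rw [Finset.disjoint_left]
      intro v hv hvA
      rw [mem_sdiff] at hv
      exact hv.2 (mem_insert_of_mem (mem_insert_of_mem (mem_union_left _ hvA)))
  refine (Finset.sum_le_sum h3).trans ?_
  rw [Finset.sum_const, nsmul_eq_mul]
  refine mul_le_mul_of_nonneg_right ?_ (pow_nonneg (qq_nonneg h0 h1 m) _)
  have h4 : I.card ≤ (Fintype.card V * Fintype.card V) *
      ((Fintype.card V).choose m * (Fintype.card V).choose m) := by
    refine (Finset.card_filter_le _ _).trans ?_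
    rw [card_product, card_product, card_product, card_powersetCard, card_univ]
  have h5 : (I.card : ℝ) ≤ (((Fintype.card V * Fintype.card V) *
      ((Fintype.card V).choose m * (Fintype.card V).choose m) : ℕ) : ℝ) := by
    exact_mod_cast h4
  refine h5.trans (le_of_eq ?_)
  push_cast
  ring

theorem prb_not_E2 {p : ℝ} (h0 : 0 ≤ p) (h1 : p ≤ 1) (s : ℕ) :
    prb p (fun G : SimpleGraph V => ¬ E2 s G) ≤ ∑ m ∈ Finset.Ico 1 s,
      (Fintype.card V : ℝ) ^ 2 * ((Fintype.card V).choose m : ℝ) ^ 2 *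
        qq p m ^ (Fintype.card V - 2 * m - 2) := by
  refine (prb_union h0 h1 (Finset.Ico 1 s) (C := fun m G => BadS m G)
    fun G hG => bad_of_not_E2 hG).trans ?_
  exact Finset.sum_le_sum fun m _ => prb_BadS h0 h1 m

/-- Small degrees. -/
theorem prb_deg {p : ℝ} (h0 : 0 ≤ p) (h1 : p ≤ 1) (d : ℕ) :
    prb p (fun G : SimpleGraph V => ∃ v, Nat.card {u : V // G.Adj v u} < d) ≤
      (Fintype.card V : ℝ) * 2 ^ (Fintype.card V) * (1 - p) ^ (Fintype.card V - d) := by
  classical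
  set n := Fintype.card V with hn
  set I := ((univ : Finset V) ×ˢ (powersetCard (n - d) (univ : Finset V))).filter
    (fun x => x.1 ∉ x.2) with hI
  have h2 : prb p (fun G : SimpleGraph V => ∃ v, Nat.card {u : V // G.Adj v u} < d) ≤
      ∑ x ∈ I, prb p (fun G => ∀ a ∈ ({x.1} : Finset V), ∀ b ∈ x.2, ¬ G.Adj a b) := by
    refine prb_union h0 h1 I fun G hG => ?_
    obtain ⟨v, hv⟩ := hG
    rw [Nat.card_eq_fintype_card, Fintype.card_subtype] at hv
    set N := (univ : Finset V).filter fun u => G.Adj v u with hN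
    have h3 : n - d ≤ (univ \ insert v N).card := by
      rw [Finset.card_sdiff_of_subset (subset_univ _), card_univ]
      have := Finset.card_insert_le v N
      omega
    obtain ⟨J, hJ1, hJ2⟩ := Finset.exists_subset_card_eq h3
    refine ⟨(v, J), ?_, ?_⟩
    · rw [hI, mem_filter, mem_product, mem_powersetCard]
      refine ⟨⟨mem_univ _, subset_univ _, hJ2⟩, fun h => ?_⟩
      have h4 := hJ1 h
      rw [mem_sdiff] at h4
      exact h4.2 (mem_insert_self _ _)
    · intro a ha b hb hab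
      rw [mem_singleton] at ha
      have h4 := hJ1 hb
      rw [mem_sdiff] at h4
      apply h4.2
      apply mem_insert_of_mem
      rw [hN, mem_filter]
      refine ⟨mem_univ _, ?_⟩
      have ha' : a = v := ha
      rw [← ha']
      exact hab
  refine h2.trans ?_
  have h3 : ∀ x ∈ I, prb p (fun G => ∀ a ∈ ({x.1} : Finset V), ∀ b ∈ x.2, ¬ G.Adj a b) =
      (1 - p) ^ (n - d) := by
    intro x hx
    rw [hI, mem_filter, mem_product, mem_powersetCard] at hx
    rw [prb_no_between h0 h1 {x.1} x.2 (Finset.disjoint_singleton_left.2 hx.2), hx.1.2.2,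
      card_singleton, one_mul]
  rw [Finset.sum_congr rfl h3, Finset.sum_const, nsmul_eq_mul]
  refine mul_le_mul_of_nonneg_right ?_ (pow_nonneg (by linarith) _)
  have h4 : I.card ≤ n * 2 ^ n := by
    refine (Finset.card_filter_le _ _).trans ?_
    rw [card_product, card_univ]
    refine Nat.mul_le_mul_left _ ?_
    refine (Finset.card_le_card (fun J _ => Finset.mem_powerset.2 (subset_univ J))).trans ?_
    rw [card_powerset, card_univ]
  exact_mod_cast h4

end Prb

end Pool.Agent.IR
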