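import Pool.Agent.IR.GnpC

/-!
# Numerical bounds for binomial random graphs (MP_ed14c7_lc)
-/

open Finset

set_option linter.unusedSectionVars false

namespace Pool.Agent.IR

/-- `log n ≥ 1` for `n ≥ 3`. -/
theorem one_le_log {n : ℕ} (hn : 3 ≤ n) : 1 ≤ Real.log n := by
  have h1 : Real.exp 1 ≤ (n : ℝ) := by
    have h2 := Real.exp_one_lt_d9
    have h3 : (3 : ℝ) ≤ n := by exact_mod_cast hn
    linarith
  have h3 : (0 : ℝ) < n := by
    have : 0 < n := by omega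
    exact_mod_cast this
  exact (Real.le_log_iff_exp_le h3).2 h1

theorem choose_le_exp {n : ℕ} (hn : 0 < n) (m : ℕ) :
    ((n.choose m : ℕ) : ℝ) ≤ Real.exp (m * Real.log n) := by
  have h1 : ((n.choose m : ℕ) : ℝ) ≤ (n : ℝ) ^ m := by exact_mod_cast Nat.choose_le_pow n m
  refine h1.trans (le_of_eq ?_)
  have h2 : (0 : ℝ) < n := by exact_mod_cast hn
  rw [mul_comm, Real.exp_mul, Real.exp_log h2, Real.rpow_natCast]

theorem one_sub_pow_le {p : ℝ} (h1 : p ≤ 1) (m : ℕ) :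
    (1 - p) ^ m ≤ Real.exp (-(p * m)) := by
  have h2 := pow_le_pow_left₀ (by linarith : (0 : ℝ) ≤ 1 - p) (Real.one_sub_le_exp_neg p) m
  refine h2.trans (le_of_eq ?_)
  rw [← Real.exp_nat_mul]
  congr 1
  ring

variable {n : ℕ} {p : ℝ}

/-- The basic inequalities. -/
theorem basic (hn : 3 ≤ n) (h0 : 0 ≤ p) (h1 : p ≤ 1)
    (h : 2000 * Real.log n ^ 2 ≤ n * p ^ 2) : 0 < p ∧ 20 * Real.log n ≤ n * p ∧
      16 * Real.log n ≤ n := by
  have hL := one_le_log hn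
  have hn0 : (0 : ℝ) < n := by
    have : 0 < n := by omega
    exact_mod_cast this
  set L := Real.log n
  have hp : 0 < p := by
    rcases h0.lt_or_eq with h2 | h2
    · exact h2
    · rw [← h2] at h
      nlinarith
  have h2 : (n : ℝ) * p ^ 2 ≤ n * p := by
    refine mul_le_mul_of_nonneg_left ?_ hn0.le
    nlinarith
  have h3 : (n : ℝ) * p ≤ n := by nlinarith
  have h4 : L ≤ L ^ 2 := by nlinarith
  refine ⟨hp, by nlinarith, by nlinarith⟩

theorem bound1 (hn : 3 ≤ n) (h0 : 0 < p) (h1 : p ≤ 1) (s : ℕ)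
    (hs : 4 * Real.log n ≤ p * s) (hs1 : 1 ≤ s) :
    ((n.choose s : ℕ) : ℝ) ^ 2 * (1 - p) ^ (s * s) ≤ 1 / n := by
  have hL := one_le_log hn
  have hn0 : (0 : ℝ) < n := by
    have : 0 < n := by omega
    exact_mod_cast this
  have h2 := choose_le_exp (show 0 < n by omega) s
  have h3 := one_sub_pow_le h1 (s * s)
  have h4 : ((n.choose s : ℕ) : ℝ) ^ 2 ≤ Real.exp (s * Real.log n) ^ 2 :=
    pow_le_pow_left₀ (by positivity) h2 2
  have h5 := mul_le_mul h4 h3 (pow_nonneg (by linarith) _) (by positivity)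
  refine h5.trans ?_
  rw [← Real.exp_nat_mul, ← Real.exp_add, one_div]
  have h6 : Real.exp (-Real.log n) = (n : ℝ)⁻¹ := by rw [Real.exp_neg, Real.exp_log hn0]
  rw [← h6]
  apply Real.exp_le_exp.2
  set L := Real.log n
  have hs1' : (1 : ℝ) ≤ s := by exact_mod_cast hs1
  push_cast
  have h7 : 4 * L * s ≤ p * s * s := by
    exact mul_le_mul_of_nonneg_right hs (by linarith)
  nlinarith

theorem qq_le (h0 : 0 < p) (h1 : p ≤ 31 / 32) {m : ℕ} (hm : 1 ≤ m) {L : ℝ} (hL : 1 ≤ L)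
    (hmL : p * m ≤ 4 * L) : qq p m ≤ Real.exp (-(m * p ^ 2 / (160 * L))) := by
  have hm1 : (1 : ℝ) ≤ m := by exact_mod_cast hm
  -- `(1-p)^m ≤ 1/(1+mp)`
  have h2 : (1 - p) ^ m * (1 + m * p) ≤ 1 := by
    have h3 : 1 + (m : ℝ) * p ≤ (1 + p) ^ m := one_add_mul_le_pow (by linarith) m
    have h4 : (0 : ℝ) ≤ (1 - p) ^ m := pow_nonneg (by linarith) m
    calc (1 - p) ^ m * (1 + m * p) ≤ (1 - p) ^ m * (1 + p) ^ m :=
          mul_le_mul_of_nonneg_left h3 h4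
      _ = ((1 - p) * (1 + p)) ^ m := by rw [mul_pow]
      _ ≤ 1 := by
          apply pow_le_one₀
          · nlinarith
          · nlinarith
  have h3 : m * p / (5 * L) ≤ 1 - (1 - p) ^ m := by
    have h4 : (0 : ℝ) ≤ (1 - p) ^ m := pow_nonneg (by linarith) m
    have h5 : 0 < 1 + m * p := by positivity
    have h6 : 1 + m * p ≤ 5 * L := by linarith
    have h7 : m * p / (1 + m * p) ≤ 1 - (1 - p) ^ m := by
      rw [div_le_iff₀ h5]
      nlinarith
    refine le_trans ?_ h7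
    apply div_le_div_of_nonneg_left (by positivity) h5 h6
  have h4 : p * (1 / 32) * (m * p / (5 * L)) ≤ p * (1 - p) * (1 - (1 - p) ^ m) := by
    refine mul_le_mul ?_ h3 (by positivity) (mul_nonneg h0.le (by linarith))
    exact mul_le_mul_of_nonneg_left (by linarith) h0.le
  have h5 : p * (1 / 32) * (m * p / (5 * L)) = m * p ^ 2 / (160 * L) := by
    field_simp
    ring
  unfold qq
  rw [h5] at h4
  refine le_trans ?_ (Real.one_sub_le_exp_neg _)
  linarith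

theorem bound2 (hn : 3 ≤ n) (h0 : 0 < p) (h1 : p ≤ 31 / 32)
    (h : 2000 * Real.log n ^ 2 ≤ n * p ^ 2) {m : ℕ} (hm : 1 ≤ m)
    (hmL : p * m ≤ 4 * Real.log n) :
    (n : ℝ) ^ 2 * ((n.choose m : ℕ) : ℝ) ^ 2 * qq p m ^ (n - 2 * m - 2) ≤
      Real.exp (-(2 * Real.log n)) := by
  have hL := one_le_log hn
  have hn0 : (0 : ℝ) < n := by
    have : 0 < n := by omega
    exact_mod_cast this
  have hm1 : (1 : ℝ) ≤ m := by exact_mod_cast hm
  obtain ⟨-, b1, b2⟩ := basic hn h0.le (by linarith) h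
  have h2 := choose_le_exp (show 0 < n by omega) m
  have h3 := qq_le h0 h1 hm hL hmL
  have h4 : ((n.choose m : ℕ) : ℝ) ^ 2 ≤ Real.exp (m * Real.log n) ^ 2 :=
    pow_le_pow_left₀ (by positivity) h2 2
  have h5 : (n : ℝ) ^ 2 = Real.exp (Real.log n) ^ 2 := by rw [Real.exp_log hn0]
  have hq0 := qq_nonneg h0.le (by linarith : p ≤ 1) m
  have h6 : qq p m ^ (n - 2 * m - 2) ≤
      Real.exp (-(m * p ^ 2 / (160 * Real.log n))) ^ (n - 2 * m - 2) :=
    pow_le_pow_left₀ hq0 h3 _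
  have h7 := mul_le_mul (mul_le_mul h5.le h4 (by positivity) (by positivity)) h6
    (pow_nonneg hq0 _) (by positivity)
  refine h7.trans ?_
  rw [← Real.exp_nat_mul, ← Real.exp_nat_mul, ← Real.exp_nat_mul, ← Real.exp_add, ← Real.exp_add]
  apply Real.exp_le_exp.2
  set L := Real.log n
  -- the number of factors
  have h8 : 4 * m + 4 ≤ n := by
    have h9 : p * (4 * m + 4) ≤ p * n := by nlinarith
    have h10 : (4 : ℝ) * m + 4 ≤ n := le_of_mul_le_mul_left h9 h0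
    exact_mod_cast h10
  have h9 : (n : ℝ) / 2 ≤ ((n - 2 * m - 2 : ℕ) : ℝ) := by
    have h10 : n ≤ 2 * (n - 2 * m - 2) := by omega
    have h11 : (n : ℝ) ≤ 2 * ((n - 2 * m - 2 : ℕ) : ℝ) := by exact_mod_cast h10
    linarith
  have h10 : 0 < 160 * L := by linarith
  have h11 : m * (2000 * L ^ 2) ≤ m * (n * p ^ 2) :=
    mul_le_mul_of_nonneg_left h (by linarith)
  have h12 : 6 * (m * L) ≤ ((n - 2 * m - 2 : ℕ) : ℝ) * (m * p ^ 2 / (160 * L)) := by
    have h13 : (n : ℝ) / 2 * (m * p ^ 2 / (160 * L)) ≤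
        ((n - 2 * m - 2 : ℕ) : ℝ) * (m * p ^ 2 / (160 * L)) :=
      mul_le_mul_of_nonneg_right h9 (by positivity)
    refine le_trans ?_ h13
    rw [← mul_div_assoc, le_div_iff₀ h10]
    nlinarith
  have h13 : L ≤ m * L := by nlinarith
  push_cast
  linarith

theorem bound2_sum (hn : 3 ≤ n) (h0 : 0 < p) (h1 : p ≤ 31 / 32)
    (h : 2000 * Real.log n ^ 2 ≤ n * p ^ 2) {s : ℕ} (hs : p * s ≤ 4 * Real.log n + p) :
    ∑ m ∈ Finset.Ico 1 s, (n : ℝ) ^ 2 * ((n.choose m : ℕ) : ℝ) ^ 2 *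
      qq p m ^ (n - 2 * m - 2) ≤ 1 / n := by
  have hL := one_le_log hn
  have hn0 : (0 : ℝ) < n := by
    have : 0 < n := by omega
    exact_mod_cast this
  obtain ⟨-, b1, b2⟩ := basic hn h0.le (by linarith) h
  have h2 : ∀ m ∈ Finset.Ico 1 s, (n : ℝ) ^ 2 * ((n.choose m : ℕ) : ℝ) ^ 2 *
      qq p m ^ (n - 2 * m - 2) ≤ Real.exp (-(2 * Real.log n)) := by
    intro m hm
    rw [Finset.mem_Ico] at hm
    refine bound2 hn h0 h1 h hm.1 ?_
    have h3 : (m : ℝ) + 1 ≤ s := by exact_mod_cast hm.2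
    have h4 : p * (m + 1) ≤ p * s := mul_le_mul_of_nonneg_left h3 h0.le
    linarith
  refine (Finset.sum_le_sum h2).trans ?_
  rw [Finset.sum_const, nsmul_eq_mul, Nat.card_Ico]
  have h3 : ((s - 1 : ℕ) : ℝ) ≤ n := by
    rcases Nat.eq_zero_or_pos s with h4 | h4
    · rw [h4]
      simp
    · rw [Nat.cast_sub h4, Nat.cast_one]
      have h5 : p * ((s : ℝ) - 1) ≤ p * n := by nlinarith
      exact le_of_mul_le_mul_left h5 h0
  have h4 : Real.exp (-(2 * Real.log n)) = 1 / (n : ℝ) * (1 / n) := by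
    rw [two_mul, neg_add, Real.exp_add, Real.exp_neg, Real.exp_log hn0, one_div]
  rw [h4]
  calc ((s - 1 : ℕ) : ℝ) * (1 / (n : ℝ) * (1 / n)) ≤ n * (1 / (n : ℝ) * (1 / n)) :=
        mul_le_mul_of_nonneg_right h3 (by positivity)
    _ = 1 / n := by field_simp

theorem bound3 (hn : 3 ≤ n) (h0 : 0 < p) (h1 : p ≤ 1) (hp : 31 / 32 ≤ p)
    (h : 2000 * Real.log n ^ 2 ≤ n * p ^ 2) {k : ℕ} (hk : n ≤ 4 * k) :
    (n : ℝ) * 2 ^ n * (1 - p) ^ k ≤ 1 / n := by
  have hL := one_le_log hn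
  have hn0 : (0 : ℝ) < n := by
    have : 0 < n := by omega
    exact_mod_cast this
  obtain ⟨-, b1, b2⟩ := basic hn h0.le h1 h
  have h2 : (1 - p) ^ k ≤ (1 / 32 : ℝ) ^ k :=
    pow_le_pow_left₀ (by linarith) (by linarith) k
  have h3 : (2 : ℝ) ^ n ≤ 16 ^ k := by
    have h4 : (2 : ℝ) ^ n ≤ 2 ^ (4 * k) := pow_le_pow_right₀ (by norm_num) hk
    rw [pow_mul] at h4
    norm_num at h4
    exact h4
  have h4 : (2 : ℝ) ^ n * (1 - p) ^ k ≤ (1 / 2 : ℝ) ^ k := by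
    calc (2 : ℝ) ^ n * (1 - p) ^ k ≤ 16 ^ k * (1 / 32 : ℝ) ^ k :=
          mul_le_mul h3 h2 (pow_nonneg (by linarith) _) (by positivity)
      _ = (1 / 2 : ℝ) ^ k := by
          rw [← mul_pow]
          norm_num
  have h5 : (1 / 2 : ℝ) ^ k ≤ Real.exp (-(1 / 2 * k)) := by
    have h6 := one_sub_pow_le (p := 1 / 2) (by norm_num) k
    norm_num at h6 ⊢
    exact h6
  have h6 : Real.exp (-(1 / 2 * k)) ≤ Real.exp (-(2 * Real.log n)) := by
    apply Real.exp_le_exp.2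
    have h7 : (n : ℝ) ≤ 4 * k := by exact_mod_cast hk
    linarith
  have h7 : Real.exp (-(2 * Real.log n)) = 1 / (n : ℝ) * (1 / n) := by
    rw [two_mul, neg_add, Real.exp_add, Real.exp_neg, Real.exp_log hn0, one_div]
  have h8 : (2 : ℝ) ^ n * (1 - p) ^ k ≤ 1 / (n : ℝ) * (1 / n) := by
    rw [← h7]
    exact h4.trans (h5.trans h6)
  calc (n : ℝ) * 2 ^ n * (1 - p) ^ k = n * (2 ^ n * (1 - p) ^ k) := by ring
    _ ≤ n * (1 / (n : ℝ) * (1 / n)) := mul_le_mul_of_nonneg_left h8 hn0.le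
    _ = 1 / n := by field_simp

end Pool.Agent.IR
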