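import Pool.Agent.IR.Short

/-!
# Path systems in graphs with many edges between all sets (MP_ed14c7_lc)
-/

open Finset

namespace Pool.Agent.IR

variable {V : Type*}

/-- The neighbours of the set `A` in the set `Y`. -/
noncomputable def nbr (G : SimpleGraph V) (A Y : Finset V) : Finset V := by
  classical exact Y.filter fun w => ∃ u ∈ A, G.Adj u w

theorem mem_nbr {G : SimpleGraph V} {A Y : Finset V} {w : V} :
    w ∈ nbr G A Y ↔ w ∈ Y ∧ ∃ u ∈ A, G.Adj u w := by
  classical
  unfold nbr
  rw [Finset.mem_filter]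

/-- A bipartite graph in which Hall's condition holds for the small sets of both sides and every two
large sets are joined by an edge has a matching which covers the smaller side. -/
theorem exists_matching (G : SimpleGraph V) (s : ℕ) (X Y : Finset V)
    (hXY : Disjoint X Y) (hc : X.card ≤ Y.card)
    (h1 : ∀ S T : Finset V, Disjoint S T → S.card = s → T.card = s → ∃ a ∈ S, ∃ b ∈ T, G.Adj a b)
    (hX : ∀ A ⊆ X, A.card < s → A.card ≤ (nbr G A Y).card)
    (hY : ∀ A ⊆ Y, A.card < s → A.card ≤ (nbr G A X).card) :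
    ∃ f : V → V, Set.InjOn f X ∧ ∀ u ∈ X, f u ∈ Y ∧ G.Adj u (f u) := by
  classical
  have hall0 : ∀ S ⊆ X, S.card ≤ (nbr G S Y).card := by
    intro S hSX
    by_contra hlt
    push Not at hlt
    set N := nbr G S Y with hN
    have hNY : N ⊆ Y := fun w hw => (mem_nbr.1 hw).1
    set T := Y \ N with hT
    have hTc : T.card = Y.card - N.card := Finset.card_sdiff_of_subset hNY
    have hSX' := Finset.card_le_card hSX
    have hNY' := Finset.card_le_card hNY
    have hs : s ≤ S.card := by
      by_contra h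
      have := hX S hSX (by omega)
      rw [← hN] at this
      omega
    have ht : T.card < s := by
      by_contra h
      push Not at h
      obtain ⟨S', hS', hS'c⟩ := Finset.exists_subset_card_eq hs
      obtain ⟨T', hT', hT'c⟩ := Finset.exists_subset_card_eq h
      have hdis : Disjoint S' T' := by
        refine Finset.disjoint_of_subset_left (hS'.trans hSX)
          (Finset.disjoint_of_subset_right ?_ hXY)
        exact hT'.trans Finset.sdiff_subset
      obtain ⟨a, ha, b, hb, hab⟩ := h1 S' T' hdis hS'c hT'c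
      have hb' := Finset.mem_sdiff.1 (hT' hb)
      exact hb'.2 (mem_nbr.2 ⟨hb'.1, a, hS' ha, hab⟩)
    have h2 := hY T Finset.sdiff_subset ht
    have h3 : (nbr G T X).card ≤ (X \ S).card := by
      refine Finset.card_le_card fun v hv => ?_
      obtain ⟨hv1, w, hw, hwv⟩ := mem_nbr.1 hv
      rw [Finset.mem_sdiff]
      refine ⟨hv1, fun hvS => ?_⟩
      have hw' := Finset.mem_sdiff.1 hw
      exact hw'.2 (mem_nbr.2 ⟨hw'.1, v, hvS, hwv.symm⟩)
    rw [Finset.card_sdiff_of_subset hSX] at h3
    omega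
  have hall : ∀ A : Finset {u : V // u ∈ X},
      A.card ≤ (A.biUnion fun u => Y.filter fun w => G.Adj u.1 w).card := by
    intro A
    have h2 : (A.map (Function.Embedding.subtype _)).card = A.card := Finset.card_map _
    rw [← h2]
    refine (hall0 _ ?_).trans (Finset.card_le_card fun w hw => ?_)
    · intro v hv
      rw [Finset.mem_map] at hv
      obtain ⟨u, -, rfl⟩ := hv
      exact u.2
    · obtain ⟨hw1, u, hu, huw⟩ := mem_nbr.1 hw
      rw [Finset.mem_map] at hu
      obtain ⟨u, hu, rfl⟩ := hu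
      rw [Finset.mem_biUnion]
      exact ⟨u, hu, Finset.mem_filter.2 ⟨hw1, huw⟩⟩
  obtain ⟨g, hg1, hg2⟩ := (Finset.all_card_le_biUnion_card_iff_exists_injective _).1 hall
  refine ⟨fun v => if h : v ∈ X then g ⟨v, h⟩ else v, ?_, ?_⟩
  · intro u hu v hv h
    have hu' : u ∈ X := hu
    have hv' : v ∈ X := hv
    simp only [dif_pos hu', dif_pos hv'] at h
    exact congrArg Subtype.val (hg1 h)
  · intro u hu
    simp only [dif_pos hu]
    have := hg2 ⟨u, hu⟩
    rw [Finset.mem_filter] at this
    exact this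

/-- Under the conditions of `exists_matching` for all pairs of nodes there are many internally
disjoint paths of length at most three. -/
theorem exists_pathSystem [Fintype V] (G : SimpleGraph V) (s k : ℕ) (x t : V)
    (hxt : x ≠ t) (hadj : ¬ G.Adj t x)
    (h1 : ∀ S T : Finset V, Disjoint S T → S.card = s → T.card = s → ∃ a ∈ S, ∃ b ∈ T, G.Adj a b)
    (h2 : ∀ a b : V, a ≠ b → ∀ A : Finset V, a ∉ A → b ∉ A → A.card < s →
      A.card ≤ Nat.card {v : V // G.Adj v a ∧ ¬ G.Adj v b ∧ v ≠ b ∧ ∃ c ∈ A, G.Adj v c})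
    (hk : ∀ v, k ≤ Nat.card {u : V // G.Adj v u}) :
    ∃ P : Finset (V × V), k ≤ P.card ∧ PathSystem G x t P := by
  classical
  set X := Finset.univ.filter fun u => G.Adj x u ∧ ¬ G.Adj t u with hXdef
  set Y := Finset.univ.filter fun u => G.Adj t u ∧ ¬ G.Adj x u with hYdef
  set C := Finset.univ.filter fun u => G.Adj x u ∧ G.Adj t u with hCdef
  have mX : ∀ u, u ∈ X ↔ G.Adj x u ∧ ¬ G.Adj t u := fun u => by simp [hXdef]
  have mY : ∀ u, u ∈ Y ↔ G.Adj t u ∧ ¬ G.Adj x u := fun u => by simp [hYdef]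
  have mC : ∀ u, u ∈ C ↔ G.Adj x u ∧ G.Adj t u := fun u => by simp [hCdef]
  have hXC : k ≤ C.card + X.card := by
    have h := hk x
    rw [Nat.card_eq_fintype_card, Fintype.card_subtype] at h
    refine h.trans ((Finset.card_le_card fun u hu => ?_).trans (Finset.card_union_le C X))
    rw [Finset.mem_filter] at hu
    rw [Finset.mem_union, mC, mX]
    by_cases h' : G.Adj t u
    · exact Or.inl ⟨hu.2, h'⟩
    · exact Or.inr ⟨hu.2, h'⟩
  have hYC : k ≤ C.card + Y.card := by
    have h := hk t
    rw [Nat.card_eq_fintype_card, Fintype.card_subtype] at h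
    refine h.trans ((Finset.card_le_card fun u hu => ?_).trans (Finset.card_union_le C Y))
    rw [Finset.mem_filter] at hu
    rw [Finset.mem_union, mC, mY]
    by_cases h' : G.Adj x u
    · exact Or.inl ⟨h', hu.2⟩
    · exact Or.inr ⟨hu.2, h'⟩
  have hXY : Disjoint X Y := by
    rw [Finset.disjoint_left]
    intro u hu hu'
    exact ((mX u).1 hu).2 ((mY u).1 hu').1
  have hX : ∀ A ⊆ X, A.card < s → A.card ≤ (nbr G A Y).card := by
    intro A hA hs
    have h3 := h2 t x hxt.symm A (fun h => hadj ((mX t).1 (hA h)).1.symm)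
      (fun h => (G.loopless.irrefl x) ((mX x).1 (hA h)).1) hs
    rw [Nat.card_eq_fintype_card, Fintype.card_subtype] at h3
    refine h3.trans (Finset.card_le_card fun v hv => ?_)
    rw [Finset.mem_filter] at hv
    obtain ⟨-, e1, e2, -, c, hc, e3⟩ := hv
    exact mem_nbr.2 ⟨(mY v).2 ⟨e1.symm, fun h => e2 h.symm⟩, c, hc, e3.symm⟩
  have hY : ∀ A ⊆ Y, A.card < s → A.card ≤ (nbr G A X).card := by
    intro A hA hs
    have h3 := h2 x t hxt A (fun h => hadj ((mY x).1 (hA h)).1)
      (fun h => (G.loopless.irrefl t) ((mY t).1 (hA h)).1) hs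
    rw [Nat.card_eq_fintype_card, Fintype.card_subtype] at h3
    refine h3.trans (Finset.card_le_card fun v hv => ?_)
    rw [Finset.mem_filter] at hv
    obtain ⟨-, e1, e2, -, c, hc, e3⟩ := hv
    exact mem_nbr.2 ⟨(mX v).2 ⟨e1.symm, fun h => e2 h.symm⟩, c, hc, e3.symm⟩
  rcases le_total X.card Y.card with hle | hle
  · obtain ⟨f, hf1, hf2⟩ := exists_matching G s X Y hXY hle h1 hX hY
    refine ⟨C.image (fun c => (c, c)) ∪ X.image (fun u => (u, f u)), ?_, ?_, ?_⟩
    · rw [Finset.card_union_of_disjoint, Finset.card_image_of_injective, Finset.card_image_of_injective]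
      · exact hXC
      · intro u v h
        exact (Prod.mk.inj h).1
      · intro u v h
        exact (Prod.mk.inj h).1
      · rw [Finset.disjoint_left]
        intro p hp hq
        rw [Finset.mem_image] at hp hq
        obtain ⟨c, hc, rfl⟩ := hp
        obtain ⟨u, hu, h⟩ := hq
        rw [(Prod.mk.inj h).1] at hu
        exact ((mX c).1 hu).2 ((mC c).1 hc).2
    · intro p hp
      rw [Finset.mem_union, Finset.mem_image, Finset.mem_image] at hp
      rcases hp with ⟨c, hc, rfl⟩ | ⟨u, hu, rfl⟩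
      · exact ⟨((mC c).1 hc).1, ((mC c).1 hc).2.symm, Or.inl rfl⟩
      · exact ⟨((mX u).1 hu).1, ((mY _).1 (hf2 u hu).1).1.symm, Or.inr (hf2 u hu).2⟩
    · intro p hp q hq hpq
      rw [Finset.mem_union, Finset.mem_image, Finset.mem_image] at hp hq
      rcases hp with ⟨c, hc, rfl⟩ | ⟨u, hu, rfl⟩ <;> rcases hq with ⟨c', hc', rfl⟩ | ⟨u', hu', rfl⟩
      · have : c ≠ c' := fun h => hpq (by rw [h])
        exact ⟨this, this, this⟩
      · have e1 : c ≠ u' := by
          rintro rfl
          exact ((mX _).1 hu').2 ((mC _).1 hc).2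
        have e2 : c ≠ f u' := fun h =>
          ((mY _).1 (hf2 u' hu').1).2 (h ▸ ((mC _).1 hc).1)
        exact ⟨e1, e2, e2⟩
      · have e1 : u ≠ c' := by
          rintro rfl
          exact ((mX _).1 hu).2 ((mC _).1 hc').2
        have e2 : f u ≠ c' := fun h =>
          ((mY _).1 (hf2 u hu).1).2 (h ▸ ((mC _).1 hc').1)
        exact ⟨e1, e2, e1⟩
      · have e1 : u ≠ u' := fun h => hpq (by rw [h])
        have e2 : f u ≠ f u' := fun h => e1 (hf1 hu hu' h)
        have e3 : u ≠ f u' := fun h =>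
          ((mX _).1 hu).2 (h ▸ ((mY _).1 (hf2 u' hu').1).1)
        exact ⟨e1, e2, e3⟩
  · obtain ⟨f, hf1, hf2⟩ := exists_matching G s Y X hXY.symm hle h1 hY hX
    refine ⟨C.image (fun c => (c, c)) ∪ Y.image (fun w => (f w, w)), ?_, ?_, ?_⟩
    · rw [Finset.card_union_of_disjoint, Finset.card_image_of_injective, Finset.card_image_of_injective]
      · exact hYC
      · intro u v h
        exact (Prod.mk.inj h).2
      · intro u v h
        exact (Prod.mk.inj h).1
      · rw [Finset.disjoint_left]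
        intro p hp hq
        rw [Finset.mem_image] at hp hq
        obtain ⟨c, hc, rfl⟩ := hp
        obtain ⟨u, hu, h⟩ := hq
        rw [(Prod.mk.inj h).2] at hu
        exact ((mY c).1 hu).2 ((mC c).1 hc).1
    · intro p hp
      rw [Finset.mem_union, Finset.mem_image, Finset.mem_image] at hp
      rcases hp with ⟨c, hc, rfl⟩ | ⟨u, hu, rfl⟩
      · exact ⟨((mC c).1 hc).1, ((mC c).1 hc).2.symm, Or.inl rfl⟩
      · exact ⟨((mX _).1 (hf2 u hu).1).1, ((mY u).1 hu).1.symm, Or.inr (hf2 u hu).2.symm⟩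
    · intro p hp q hq hpq
      rw [Finset.mem_union, Finset.mem_image, Finset.mem_image] at hp hq
      rcases hp with ⟨c, hc, rfl⟩ | ⟨u, hu, rfl⟩ <;> rcases hq with ⟨c', hc', rfl⟩ | ⟨u', hu', rfl⟩
      · have : c ≠ c' := fun h => hpq (by rw [h])
        exact ⟨this, this, this⟩
      · have e1 : c ≠ u' := by
          rintro rfl
          exact ((mY _).1 hu').2 ((mC _).1 hc).1
        have e2 : c ≠ f u' := fun h =>
          ((mX _).1 (hf2 u' hu').1).2 (h ▸ ((mC _).1 hc).2)
        exact ⟨e2, e1, e1⟩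
      · have e1 : u ≠ c' := by
          rintro rfl
          exact ((mY _).1 hu).2 ((mC _).1 hc').1
        have e2 : f u ≠ c' := fun h =>
          ((mX _).1 (hf2 u hu).1).2 (h ▸ ((mC _).1 hc').2)
        exact ⟨e2, e1, e2⟩
      · have e1 : u ≠ u' := fun h => hpq (by rw [h])
        have e2 : f u ≠ f u' := fun h => e1 (hf1 hu hu' h)
        have e3 : f u ≠ u' := fun h =>
          ((mX _).1 (hf2 u hu).1).2 (h ▸ ((mY _).1 hu').1)
        exact ⟨e2, e1, e3⟩

end Pool.Agent.IR
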