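import Pool.Agent.IR.Cnt

/-!
# The order of the nodes of a dense graph (MP_ed14c7_lc)
-/

open Finset

namespace Pool.Agent.IR

variable {V : Type*} [Fintype V] (G : SimpleGraph V) (t : V) (E : V → ℕ)

/-- the first round in which the near node `a` is tested in the second place by a near node -/
noncomputable def key (σ : V → V → Option V) (a : V) : ℕ :=
  sInf (insert (Fintype.card V) {m | ∃ x z, G.Adj t z ∧ σ x z = some a ∧ m = E x})

open Classical in
/-- the rank of a node -/
noncomputable def rk (σ : V → V → Option V) (v : V) : ℕ :=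
  if v = t then 0
  else if G.Adj t v then
    (Fintype.card V + 1 + (Fintype.card V - key G t E σ v)) * (Fintype.card V + 1) + E v
  else 1 + E v

variable {G t E}

theorem key_le (σ : V → V → Option V) (a : V) : key G t E σ a ≤ Fintype.card V :=
  Nat.sInf_le (Set.mem_insert _ _)

theorem key_le_of {σ : V → V → Option V} {x z a : V} (h1 : G.Adj t z) (h2 : σ x z = some a) :
    key G t E σ a ≤ E x :=
  Nat.sInf_le (Set.mem_insert_of_mem _ ⟨x, z, h1, h2, rfl⟩)

theorem key_mem (σ : V → V → Option V) (a : V) :
    key G t E σ a = Fintype.card V ∨ ∃ x z, G.Adj t z ∧ σ x z = some a ∧ key G t E σ a = E x := by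
  have h := Nat.sInf_mem (s := insert (Fintype.card V)
    {m | ∃ x z, G.Adj t z ∧ σ x z = some a ∧ m = E x}) ⟨_, Set.mem_insert _ _⟩
  rcases h with h | h
  · exact Or.inl h
  · exact Or.inr h

theorem rk_t (σ : V → V → Option V) : rk G t E σ t = 0 := by
  unfold rk
  rw [if_pos rfl]

theorem rk_far {σ : V → V → Option V} {v : V} (h : Far G t v) : rk G t E σ v = 1 + E v := by
  unfold rk
  rw [if_neg h.1, if_neg h.2]

theorem rk_near {σ : V → V → Option V} {v : V} (h : G.Adj t v) : rk G t E σ v =
    (Fintype.card V + 1 + (Fintype.card V - key G t E σ v)) * (Fintype.card V + 1) + E v := by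
  unfold rk
  rw [if_neg h.ne', if_pos h]

theorem rk_near_gt {σ : V → V → Option V} {v : V} (h : G.Adj t v) :
    Fintype.card V < rk G t E σ v := by
  rw [rk_near h]
  have h1 : (Fintype.card V + 1) * 1 ≤ (Fintype.card V + 1 + (Fintype.card V - key G t E σ v)) *
      (Fintype.card V + 1) := Nat.mul_le_mul (by omega) (by omega)
  omega

theorem rk_far_lt_near (hEn : ∀ v, E v < Fintype.card V) {σ : V → V → Option V} {f a : V}
    (hf : Far G t f) (ha : G.Adj t a) : rk G t E σ f < rk G t E σ a := by
  have h1 := rk_near_gt (E := E) (σ := σ) ha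
  have h2 := hEn f
  rw [rk_far hf]
  omega

theorem rk_near_lt (hEn : ∀ v, E v < Fintype.card V) {σ : V → V → Option V} {a b : V}
    (ha : G.Adj t a) (hb : G.Adj t b) (h : key G t E σ b < key G t E σ a) :
    rk G t E σ a < rk G t E σ b := by
  rw [rk_near ha, rk_near hb]
  have h1 := key_le (G := G) (t := t) (E := E) σ a
  have h2 := hEn a
  have h3 : (Fintype.card V + 1 + (Fintype.card V - key G t E σ a) + 1) * (Fintype.card V + 1)
      ≤ (Fintype.card V + 1 + (Fintype.card V - key G t E σ b)) * (Fintype.card V + 1) :=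
    Nat.mul_le_mul (by omega) le_rfl
  have h4 : (Fintype.card V + 1 + (Fintype.card V - key G t E σ a) + 1) * (Fintype.card V + 1)
      = (Fintype.card V + 1 + (Fintype.card V - key G t E σ a)) * (Fintype.card V + 1)
        + (Fintype.card V + 1) := by ring
  omega

theorem rk_inj (hE : Function.Injective E) (hEn : ∀ v, E v < Fintype.card V)
    (σ : V → V → Option V) : Function.Injective (rk G t E σ) := by
  have pos : ∀ v, v ≠ t → 0 < rk G t E σ v := by
    intro v hv
    by_cases h : G.Adj t v
    · exact lt_of_le_of_lt (Nat.zero_le _) (rk_near_gt h)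
    · rw [rk_far ⟨hv, h⟩]; omega
  intro v w h
  by_cases hv : v = t
  · subst hv
    by_contra hw
    have := pos w (Ne.symm hw)
    rw [← h, rk_t] at this
    exact lt_irrefl _ this
  by_cases hw : w = t
  · subst hw
    have := pos v hv
    rw [h, rk_t] at this
    exact absurd this (lt_irrefl _)
  by_cases h1 : G.Adj t v
  · by_cases h2 : G.Adj t w
    · rw [rk_near h1, rk_near h2] at h
      have h3 := congrArg (· % (Fintype.card V + 1)) h
      simp only [Nat.mul_add_mod_self_right] at h3
      rw [Nat.mod_eq_of_lt ((hEn v).trans (Nat.lt_succ_self _)),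
        Nat.mod_eq_of_lt ((hEn w).trans (Nat.lt_succ_self _))] at h3
      exact hE h3
    · have := rk_far_lt_near hEn (σ := σ) (⟨hw, h2⟩ : Far G t w) h1
      exact absurd h this.ne'
  · by_cases h2 : G.Adj t w
    · have := rk_far_lt_near hEn (σ := σ) (⟨hv, h1⟩ : Far G t v) h2
      exact absurd h this.ne
    · rw [rk_far ⟨hv, h1⟩, rk_far ⟨hw, h2⟩] at h
      exact hE (by omega)

/-- The second tests satisfy the conditions. -/
theorem tests_of (hEn : ∀ v, E v < Fintype.card V)
    {k : ℕ} {σ : V → V → Option V}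
    (hσ : ∀ x, Far G t x → Sys G t E k x (Forb G t E σ x) (σ x))
    (hσ0 : ∀ x, ¬ Far G t x → ∀ u, σ x u = none) (hE : Function.Injective E) :
    letI : LinearOrder V := LinearOrder.lift' (rk G t E σ) (rk_inj hE hEn σ)
    Tests G σ := by
  let _ : LinearOrder V := LinearOrder.lift' (rk G t E σ) (rk_inj hE hEn σ)
  have hlt : ∀ {a b : V}, rk G t E σ a < rk G t E σ b → a < b := fun h => h
  have hfar : ∀ {x u w}, σ x u = some w → Far G t x := by
    intro x u w h
    by_contra hcon
    rw [hσ0 x hcon u] at h
    exact absurd h (by simp)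
  refine ⟨?_, ?_, ?_, ?_⟩
  · intro x u w h
    have hS := hσ x (hfar h)
    by_cases hu : G.Adj t u
    · exact (hS.stage2 hu h).2.2.1
    · exact (hS.stage1 hu h).2.1
  · intro x u w h
    have hS := hσ x (hfar h)
    apply hlt
    by_cases hu : G.Adj t u
    · obtain ⟨h1, h2, h3, h4, h5, -⟩ := hS.stage2 hu h
      refine rk_near_lt hEn hu h4 ?_
      have h6 := key_le_of (E := E) hu h
      refine lt_of_le_of_lt h6 ?_
      rcases key_mem (G := G) (t := t) (E := E) σ u with h7 | ⟨x', z, h7, h8, h9⟩
      · rw [h7]; exact hEn x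
      · rw [h9]
        by_contra h10
        push Not at h10
        rcases h10.eq_or_lt with h11 | h11
        · have h12 := hE h11
          subst h12
          exact ((hσ x' (hfar h8)).stage2 h7 h8).2.2.2.2.1 h1
        · exact h2 ⟨x', h11, Or.inl ⟨z, h7, h8⟩⟩
    · obtain ⟨h1, h2, h3, -⟩ := hS.stage1 hu h
      exact rk_far_lt_near hEn h1.2.1 h3
  · intro x u w h
    have hx := hfar h
    have hS := hσ x hx
    refine ⟨t, ?_, ?_⟩
    · by_cases hu : G.Adj t u
      · exact (hS.stage2 hu h).2.2.2.1.symm
      · exact (hS.stage1 hu h).2.2.1.symm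
    · apply hlt
      rw [rk_t, rk_far hx]
      omega
  · intro x u w h
    have hx := hfar h
    have hS := hσ x hx
    by_cases hu : G.Adj t u
    · exact hσ0 u (fun h' => h'.2 hu) w
    · obtain ⟨h1, h2, h3, -⟩ := hS.stage1 hu h
      cases h4 : σ u w with
      | none => rfl
      | some w' =>
        exfalso
        obtain ⟨-, h5, -⟩ := (hσ u h1.2.1).stage2 h3 h4
        exact h5 ⟨x, h1.2.2.2.1, Or.inr h⟩

end Pool.Agent.IR
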