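import Pool.Agent.IR.Match
import Pool.Agent.IR.Dense
import Pool.Agent.IR.GnpD

/-!
# Ideal resilience of random graphs (MP_ed14c7_lc)
-/

open Finset

set_option linter.unusedSectionVars false

namespace Pool.Agent.IR

/-- For every target `t` and every `k` which is at most the minimum degree there is a forwarding
pattern which, for all sets of less than `k` failed links, delivers the packets from all sources. -/
def Resilient {V : Type*} (G : SimpleGraph V) : Prop :=
  ∀ (t : V) (k : ℕ), (∀ v, k ≤ Nat.card {u : V // G.Adj v u}) →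
    ∃ π : Pattern G, ∀ F : Finset (Sym2 V), (∀ e ∈ F, e ∈ G.edgeSet) → F.card < k →
      ∀ s, Delivers π F s t

section Det

variable {V : Type} [Fintype V] [DecidableEq V]

theorem resilient_of_E (G : SimpleGraph V) (s : ℕ) (h1 : E1 s G) (h2 : E2 s G) :
    Resilient G := by
  intro t k hk
  refine short_paths G t k (fun x _ => hk x) fun x hxt hadj => ?_
  exact exists_pathSystem G s k x t hxt hadj h1 h2 hk

theorem resilient_of_deg (G : SimpleGraph V) (d : ℕ) (hd : 3 * Fintype.card V ≤ 4 * d + 7)
    (h : ∀ v, d ≤ Nat.card {u : V // G.Adj v u}) : Resilient G := by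
  classical
  intro t k hk
  obtain ⟨v₀, -, hv₀⟩ := Finset.exists_min_image (Finset.univ : Finset V)
    (fun v => Nat.card {u : V // G.Adj v u}) ⟨t, Finset.mem_univ t⟩
  have h1 := h v₀
  have h2 := hk v₀
  have h3 := h t
  obtain ⟨π, hπ⟩ := dense G t (Nat.card {u : V // G.Adj v₀ u})
    (fun v => hv₀ v (Finset.mem_univ v)) (by omega)
  exact ⟨π, fun F hF hc => hπ F hF (by omega)⟩

theorem prb_not_resilient {p : ℝ} (h0 : 0 ≤ p) (h1 : p ≤ 1) (hn : 3 ≤ Fintype.card V)
    (h : 2000 * Real.log (Fintype.card V) ^ 2 ≤ (Fintype.card V) * p ^ 2) :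
    prb p (fun G : SimpleGraph V => ¬ Resilient G) ≤ 2 / (Fintype.card V) := by
  classical
  set n := Fintype.card V with hndef
  have hL := one_le_log hn
  have hn0 : (0 : ℝ) < n := by
    have : 0 < n := by omega
    exact_mod_cast this
  obtain ⟨hp, b1, b2⟩ := basic hn h0 h1 h
  rcases le_total p (31 / 32) with hp1 | hp1
  · -- the general case
    set s := ⌈4 * Real.log n / p⌉₊ with hs
    have hs1 : 4 * Real.log n ≤ p * s := by
      have h2 := Nat.le_ceil (4 * Real.log n / p)
      rw [div_le_iff₀ hp] at h2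
      rw [mul_comm p]
      exact h2
    have hs2 : p * s ≤ 4 * Real.log n + p := by
      have h2 := Nat.ceil_lt_add_one (show 0 ≤ 4 * Real.log n / p by positivity)
      have h3 : p * s ≤ p * (4 * Real.log n / p + 1) :=
        mul_le_mul_of_nonneg_left h2.le hp.le
      have h4 : p * (4 * Real.log n / p + 1) = 4 * Real.log n + p := by field_simp
      linarith
    have hs3 : 1 ≤ s := by
      rw [hs, Nat.one_le_ceil_iff]
      positivity
    have h2 : prb p (fun G : SimpleGraph V => ¬ Resilient G) ≤
        ∑ i ∈ (Finset.univ : Finset (Fin 2)), prb p (fun G : SimpleGraph V =>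
          if i = 0 then ¬ E1 s G else ¬ E2 s G) := by
      refine prb_union h0 h1 Finset.univ fun G hG => ?_
      by_cases h3 : E1 s G
      · refine ⟨1, Finset.mem_univ _, ?_⟩
        rw [if_neg (by decide)]
        exact fun h4 => hG (resilient_of_E G s h3 h4)
      · refine ⟨0, Finset.mem_univ _, ?_⟩
        rw [if_pos rfl]
        exact h3
    rw [Fin.sum_univ_two] at h2
    have h3 : prb p (fun G : SimpleGraph V => if (0 : Fin 2) = 0 then ¬ E1 s G else ¬ E2 s G) =
        prb p (fun G : SimpleGraph V => ¬ E1 s G) :=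
      prb_congr p fun G => by rw [if_pos rfl]
    have h4 : prb p (fun G : SimpleGraph V => if (1 : Fin 2) = 0 then ¬ E1 s G else ¬ E2 s G) =
        prb p (fun G : SimpleGraph V => ¬ E2 s G) :=
      prb_congr p fun G => by rw [if_neg (by decide)]
    rw [h3, h4] at h2
    have h5 := (prb_not_E1 (V := V) h0 h1 s).trans (bound1 hn hp h1 s hs1 hs3)
    have h6 := (prb_not_E2 (V := V) h0 h1 s).trans (bound2_sum hn hp hp1 h hs2)
    have h7 : (2 : ℝ) / n = 1 / n + 1 / n := by ring
    rw [h7]
    linarith
  · -- many edges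
    have h2 : prb p (fun G : SimpleGraph V => ¬ Resilient G) ≤
        prb p (fun G : SimpleGraph V => ∃ v, Nat.card {u : V // G.Adj v u} < (3 * n - 4) / 4) := by
      refine prb_mono h0 h1 fun G hG => ?_
      by_contra h3
      push Not at h3
      exact hG (resilient_of_deg G ((3 * n - 4) / 4) (by omega) h3)
    have h3 := (h2.trans (prb_deg (V := V) h0 h1 ((3 * n - 4) / 4))).trans
      (bound3 hn hp h1 hp1 h (by omega))
    refine h3.trans ?_
    apply div_le_div_of_nonneg_right _ hn0.le
    norm_num

theorem prb_resilient {p : ℝ} (h0 : 0 ≤ p) (h1 : p ≤ 1) (hn : 1 ≤ Fintype.card V)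
    (h : 2000 * Real.log (Fintype.card V) ^ 2 ≤ (Fintype.card V) * p ^ 2) :
    1 - 2 / (Fintype.card V : ℝ) ≤ prb p (fun G : SimpleGraph V => Resilient G) := by
  have hn0 : (0 : ℝ) < Fintype.card V := by
    have : 0 < Fintype.card V := by omega
    exact_mod_cast this
  by_cases h3 : 3 ≤ Fintype.card V
  · have h4 := prb_not_resilient h0 h1 h3 h
    have h5 := prb_split p (fun _ : SimpleGraph V => True) (fun G => Resilient G)
    rw [prb_true h0 h1] at h5
    have h6 : prb p (fun G : SimpleGraph V => True ∧ Resilient G) =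
        prb p (fun G : SimpleGraph V => Resilient G) :=
      prb_congr p fun G => ⟨fun h => h.2, fun h => ⟨trivial, h⟩⟩
    have h7 : prb p (fun G : SimpleGraph V => True ∧ ¬ Resilient G) =
        prb p (fun G : SimpleGraph V => ¬ Resilient G) :=
      prb_congr p fun G => ⟨fun h => h.2, fun h => ⟨trivial, h⟩⟩
    rw [h6, h7] at h5
    linarith
  · have h4 := prb_nonneg h0 h1 (fun G : SimpleGraph V => Resilient G)
    have h5 : (1 : ℝ) ≤ 2 / (Fintype.card V : ℝ) := by
      rw [le_div_iff₀ hn0, one_mul]
      have h6 : Fintype.card V ≤ 2 := by omega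
      exact_mod_cast h6
    linarith

end Det

end Pool.Agent.IR
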