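import Mathlib

/-!
# Selection of the second tests in dense graphs (MP_ed14c7_lc)
-/

open Finset

namespace Pool.Agent.IR

variable {V : Type*} (G : SimpleGraph V) (t : V) (E : V → ℕ)

/-- `v` is neither the target nor a neighbour of the target -/
def Far (v : V) : Prop := v ≠ t ∧ ¬ G.Adj t v

/-- `y` and `x` are adjacent and far, and `x` is the first far neighbour of `y` -/
def Bad (x y : V) : Prop :=
  Far G t x ∧ Far G t y ∧ G.Adj x y ∧ E x < E y ∧ ∀ b, Far G t b → G.Adj b y → E x ≤ E b

variable [Fintype V]

open Classical in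
/-- the number of neighbours -/
noncomputable def dg (v : V) : ℕ := (Finset.univ.filter (G.Adj v)).card

open Classical in
/-- a system of second tests for `x`, avoiding the set `Forb` -/
structure Sys (k : ℕ) (x : V) (Forb : Set V) (τ : V → Option V) : Prop where
  dom : ∀ u w, τ u = some w →
    (Bad G t E x u ∧ G.Adj u w ∧ G.Adj t w ∧ (G.Adj x w → w ∉ Forb ∧ ∃ h, τ w = some h)) ∨
    (G.Adj t u ∧ G.Adj x u ∧ u ∉ Forb ∧ G.Adj u w ∧ G.Adj t w ∧ ¬ G.Adj x w ∧
      ∃ y, Bad G t E x y ∧ τ y = some u)
  inj : ∀ u u' w, τ u = some w → τ u' = some w → u = u'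
  cnt : k + (Finset.univ.filter fun y => Bad G t E x y ∧ τ y = none).card ≤ dg G x

/-- a set of non-neighbours of `v` -/
theorem card_nonadj (v : V) (P : Finset V) (hP : ∀ p ∈ P, ¬ G.Adj v p ∧ p ≠ v) :
    P.card + dg G v + 1 ≤ Fintype.card V := by
  classical
  have h1 : Disjoint P (Finset.univ.filter (G.Adj v)) := by
    rw [Finset.disjoint_left]
    intro p hp hp'
    exact (hP p hp).1 (Finset.mem_filter.1 hp').2
  have h2 : v ∉ P ∪ Finset.univ.filter (G.Adj v) := by
    rw [Finset.mem_union, Finset.mem_filter]
    rintro (h | h)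
    · exact (hP v h).2 rfl
    · exact G.irrefl h.2
  have h3 : (insert v (P ∪ Finset.univ.filter (G.Adj v))).card ≤ Fintype.card V :=
    Finset.card_le_univ _
  rw [Finset.card_insert_of_notMem h2, Finset.card_union_of_disjoint h1] at h3
  unfold dg
  convert h3 using 3

open Classical in
theorem card_near_far :
    dg G t + (Finset.univ.filter fun v => Far G t v).card + 1 = Fintype.card V := by
  have h1 : (Finset.univ : Finset V) = insert t (Finset.univ.filter (G.Adj t) ∪
      Finset.univ.filter fun v => Far G t v) := by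
    ext v
    simp only [Finset.mem_univ, Finset.mem_insert, Finset.mem_union, Finset.mem_filter, true_and,
      true_iff, Far]
    tauto
  have h2 : t ∉ Finset.univ.filter (G.Adj t) ∪ Finset.univ.filter fun v => Far G t v := by
    simp [Far]
  have h3 : Disjoint (Finset.univ.filter (G.Adj t)) (Finset.univ.filter fun v => Far G t v) := by
    rw [Finset.disjoint_left]
    intro v hv hv'
    exact (Finset.mem_filter.1 hv').2.2 (Finset.mem_filter.1 hv).2
  have h4 := congrArg Finset.card h1
  rw [Finset.card_insert_of_notMem h2, Finset.card_union_of_disjoint h3, Finset.card_univ] at h4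
  rw [h4]
  rfl

open Classical in
/-- the selection lemma (an application of the marriage theorem) -/
theorem sel {k : ℕ} (hk : ∀ v, k ≤ dg G v) (x : V) (hx : Far G t x) (Forb P : Finset V)
    (hP : ∀ p ∈ P, Far G t p ∧ E p < E x)
    (hcard : Forb.card + (Finset.univ.filter (Bad G t E x)).card + 1
      ≤ (Finset.univ.filter fun v => Far G t v).card + P.card)
    (hn : 3 * Fintype.card V ≤ 2 * k + 2 * dg G t + 7) :
    ∃ τ : V → Option V, Sys G t E k x Forb τ := by
  set Y := Finset.univ.filter (Bad G t E x) with hY
  set d := min Y.card (dg G x - k) with hd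
  have memY : ∀ u, u ∈ Y ↔ Bad G t E x u := by intro u; simp [hY]
  -- the relation
  let r : V → V ⊕ Fin d → Prop := fun u a => match a with
    | Sum.inl w => (Bad G t E x u ∧ G.Adj t w ∧ G.Adj u w ∧ (G.Adj x w → w ∉ Forb)) ∨
        (G.Adj t u ∧ (w = u ∨ (G.Adj t w ∧ ¬ G.Adj x w ∧ G.Adj u w)))
    | Sum.inr _ => Bad G t E x u
  let L : V → Prop := fun u => Bad G t E x u ∨ (G.Adj t u ∧ G.Adj x u)
  have hnb : ∀ u, Bad G t E x u → ¬ G.Adj t u := fun u hu => hu.2.1.2
  let tt : {u // L u} → Finset (V ⊕ Fin d) := fun u => Finset.univ.filter (r u)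
  have hall : ∀ s : Finset {u // L u}, s.card ≤ (s.biUnion tt).card := by
    intro s
    set S : Finset V := s.map ⟨Subtype.val, Subtype.val_injective⟩ with hS
    have hSc : S.card = s.card := Finset.card_map _
    have memS : ∀ u, u ∈ S ↔ ∃ hu : L u, (⟨u, hu⟩ : {u // L u}) ∈ s := by
      intro u
      rw [hS, Finset.mem_map]
      constructor
      · rintro ⟨⟨v, hv⟩, hvs, rfl⟩
        exact ⟨hv, hvs⟩
      · rintro ⟨hu, hus⟩
        exact ⟨⟨u, hu⟩, hus, rfl⟩
    have memN : ∀ (u : V) (a : V ⊕ Fin d), u ∈ S → r u a → a ∈ s.biUnion tt := by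
      intro u a hu ha
      obtain ⟨hu1, hu2⟩ := (memS u).1 hu
      rw [Finset.mem_biUnion]
      exact ⟨⟨u, hu1⟩, hu2, Finset.mem_filter.2 ⟨Finset.mem_univ _, ha⟩⟩
    by_cases hyS : ∃ y ∈ S, Bad G t E x y
    · obtain ⟨y, hyS, hy⟩ := hyS
      by_contra hlt
      push Not at hlt
      set Q : Finset V := Finset.univ.filter fun w => Sum.inl w ∈ s.biUnion tt with hQ
      have memQ : ∀ w, w ∈ Q ↔ Sum.inl w ∈ s.biUnion tt := by intro w; simp [hQ]
      -- (3)
      have h3 : Q.card + d ≤ (s.biUnion tt).card := by
        have e1 : Q.card + d = (Q.disjSum (Finset.univ : Finset (Fin d))).card := by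
          rw [Finset.card_disjSum, Finset.card_univ, Fintype.card_fin]
        rw [e1]
        refine Finset.card_le_card fun a ha => ?_
        rcases a with w | i
        · rw [Finset.inl_mem_disjSum] at ha
          exact (memQ w).1 ha
        · exact memN y _ hyS hy
      -- a node `h`
      obtain ⟨h, hth, hxh, hhQ⟩ : ∃ h, G.Adj t h ∧ ¬ G.Adj x h ∧ h ∉ Q := by
        by_contra hno
        push Not at hno
        set A' := Finset.univ.filter fun w => G.Adj t w ∧ ¬ G.Adj x w with hA'
        set Z := Finset.univ.filter fun w => G.Adj t w ∧ G.Adj x w with hZ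
        set SZ := S.filter fun w => G.Adj t w with hSZ
        have c1 : (A' ∪ SZ).card ≤ Q.card := by
          refine Finset.card_le_card fun w hw => ?_
          rcases Finset.mem_union.1 hw with hw | hw
          · have := (Finset.mem_filter.1 hw).2
            exact hno w this.1 this.2
          · obtain ⟨hw1, hw2⟩ := Finset.mem_filter.1 hw
            exact (memQ w).2 (memN w _ hw1 (Or.inr ⟨hw2, Or.inl rfl⟩))
        have c2 : Disjoint A' SZ := by
          rw [Finset.disjoint_left]
          intro w hw hw'
          obtain ⟨hw1, hw2⟩ := Finset.mem_filter.1 hw'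
          obtain ⟨hL, -⟩ := (memS w).1 hw1
          rcases hL with hb | hb
          · exact hnb w hb hw2
          · exact (Finset.mem_filter.1 hw).2.2 hb.2
        rw [Finset.card_union_of_disjoint c2] at c1
        have c3 : S.card ≤ Y.card + SZ.card := by
          rw [← Finset.card_filter_add_card_filter_not (s := S) (p := fun w => G.Adj t w), add_comm]
          refine Nat.add_le_add_right (Finset.card_le_card fun w hw => ?_) _
          obtain ⟨hw1, hw2⟩ := Finset.mem_filter.1 hw
          obtain ⟨hL, -⟩ := (memS w).1 hw1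
          rcases hL with hb | hb
          · exact (memY w).2 hb
          · exact absurd hb.1 hw2
        -- `|A'| + |Z| = deg t`
        have c4 : A'.card + Z.card = dg G t := by
          unfold dg
          rw [← Finset.card_filter_add_card_filter_not (s := Finset.univ.filter (G.Adj t))
            (p := fun w => ¬ G.Adj x w)]
          congr 1
          · rw [hA', Finset.filter_filter]
          · rw [hZ, Finset.filter_filter]
            congr 1
            ext w
            simp
        have c5 : Z.card + Y.card ≤ dg G x := by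
          have : Disjoint Z Y := by
            rw [Finset.disjoint_left]
            intro w hw hw'
            exact hnb w ((memY w).1 hw') (Finset.mem_filter.1 hw).2.1
          rw [← Finset.card_union_of_disjoint this]
          unfold dg
          refine Finset.card_le_card fun w hw => ?_
          rw [Finset.mem_filter]
          refine ⟨Finset.mem_univ _, ?_⟩
          rcases Finset.mem_union.1 hw with hw | hw
          · exact (Finset.mem_filter.1 hw).2.2
          · exact ((memY w).1 hw).2.2.1
        have c6 := hk t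
        have c7 := hk x
        rcases Nat.le_total Y.card (dg G x - k) with hc | hc
        · have : d = Y.card := min_eq_left hc
          omega
        · have : d = dg G x - k := min_eq_right hc
          omega
      -- (1)
      have h1 : S.card + 1 + dg G h + 1 ≤ Fintype.card V := by
        have hxS : x ∉ S := by
          intro hxS
          obtain ⟨hL, -⟩ := (memS x).1 hxS
          rcases hL with hb | hb
          · exact G.irrefl hb.2.2.1
          · exact G.irrefl hb.2
        have := card_nonadj G h (insert x S) ?_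
        · rwa [Finset.card_insert_of_notMem hxS] at this
        · intro p hp
          rcases Finset.mem_insert.1 hp with rfl | hp
          · exact ⟨fun h' => hxh h'.symm, fun h' => hx.2 (h' ▸ hth)⟩
          · obtain ⟨hL, -⟩ := (memS p).1 hp
            rcases hL with hb | hb
            · refine ⟨fun h' => hhQ ((memQ h).2 (memN p _ hp (Or.inl ⟨hb, hth, h'.symm, ?_⟩))), ?_⟩
              · exact fun h'' => absurd h'' hxh
              · rintro rfl
                exact hnb _ hb hth
            · refine ⟨fun h' => hhQ ((memQ h).2 (memN p _ hp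
                (Or.inr ⟨hb.1, Or.inr ⟨hth, hxh, h'.symm⟩⟩))), ?_⟩
              rintro rfl
              exact hxh hb.2
      -- (2)
      set A2 := Finset.univ.filter fun w => G.Adj t w ∧ (G.Adj x w → w ∉ Forb) with hA2
      have h2 : (A2 \ Q).card + P.card + 1 + dg G y + 1 ≤ Fintype.card V := by
        have d1 : Disjoint (A2 \ Q) P := by
          rw [Finset.disjoint_left]
          intro w hw hw'
          exact (hP w hw').1.2 (Finset.mem_filter.1 (Finset.mem_sdiff.1 hw).1).2.1
        have d2 : t ∉ (A2 \ Q) ∪ P := by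
          intro ht
          rcases Finset.mem_union.1 ht with ht | ht
          · exact G.irrefl (Finset.mem_filter.1 (Finset.mem_sdiff.1 ht).1).2.1
          · exact (hP t ht).1.1 rfl
        have := card_nonadj G y (insert t ((A2 \ Q) ∪ P)) ?_
        · rwa [Finset.card_insert_of_notMem d2, Finset.card_union_of_disjoint d1] at this
        · intro p hp
          rcases Finset.mem_insert.1 hp with rfl | hp
          · exact ⟨fun h' => hnb y hy h'.symm, fun h' => hy.2.1.1 h'.symm⟩
          rcases Finset.mem_union.1 hp with hp | hp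
          · obtain ⟨hp1, hp2⟩ := Finset.mem_sdiff.1 hp
            obtain ⟨hp3, hp4⟩ := (Finset.mem_filter.1 hp1).2
            refine ⟨fun h' => hp2 ((memQ p).2 (memN y _ hyS (Or.inl ⟨hy, hp3, h', hp4⟩))), ?_⟩
            rintro rfl
            exact hnb _ hy hp3
          · obtain ⟨hp1, hp2⟩ := hP p hp
            refine ⟨fun h' => ?_, ?_⟩
            · exact absurd hp2 (not_lt.2 (hy.2.2.2.2 p hp1 h'.symm))
            · rintro rfl
              exact absurd (hp2.trans hy.2.2.2.1) (lt_irrefl _)
      have h2a : A2.card ≤ (A2 \ Q).card + Q.card := by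
        have := Finset.le_card_sdiff Q A2
        omega
      have h2b : dg G t ≤ A2.card + Forb.card := by
        unfold dg
        have : Finset.univ.filter (G.Adj t) ⊆ A2 ∪ Forb := by
          intro w hw
          have hw' := (Finset.mem_filter.1 hw).2
          rw [Finset.mem_union]
          by_cases hwF : w ∈ Forb
          · exact Or.inr hwF
          · exact Or.inl (Finset.mem_filter.2 ⟨Finset.mem_univ _, hw', fun _ => hwF⟩)
        exact (Finset.card_le_card this).trans (Finset.card_union_le _ _)
      have h5 := card_near_far G t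
      have h6 : 1 ≤ Y.card := Finset.card_pos.2 ⟨y, (memY y).2 hy⟩
      have k1 := hk h
      have k2 := hk y
      omega
    · -- no bad node in `S`
      push Not at hyS
      rw [← hSc]
      have : S.card = (S.map (Function.Embedding.inl : V ↪ V ⊕ Fin d)).card :=
        (Finset.card_map _).symm
      rw [this]
      refine Finset.card_le_card fun a ha => ?_
      obtain ⟨w, hw, rfl⟩ := Finset.mem_map.1 ha
      obtain ⟨hL, -⟩ := (memS w).1 hw
      rcases hL with hb | hb
      · exact absurd hb (hyS w hw)
      · exact memN w _ hw (Or.inr ⟨hb.1, Or.inl rfl⟩)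
  obtain ⟨f, hfi, hf⟩ := (Finset.all_card_le_biUnion_card_iff_exists_injective tt).1 hall
  have hf' : ∀ (u : V) (hu : L u), r u (f ⟨u, hu⟩) := fun u hu => (Finset.mem_filter.1 (hf ⟨u, hu⟩)).2
  -- the function
  let rel : V → V → Prop := fun u w => ∃ hu : L u, f ⟨u, hu⟩ = Sum.inl w
  have relinj : ∀ u u' w, rel u w → rel u' w → u = u' := by
    rintro u u' w ⟨hu, h1⟩ ⟨hu', h2⟩
    have := hfi (h1.trans h2.symm)
    exact congrArg Subtype.val this
  have relfun : ∀ u w w', rel u w → rel u w' → w = w' := by
    rintro u w w' ⟨hu, h1⟩ ⟨_, h2⟩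
    exact Sum.inl.inj (h1.symm.trans h2)
  have relr : ∀ u w, rel u w → r u (Sum.inl w) := by
    rintro u w ⟨hu, h1⟩
    rw [← h1]; exact hf' u hu
  let τ : V → Option V := fun u =>
    if h : ∃ w, rel u w ∧ (Bad G t E x u ∨ ∃ y, Bad G t E x y ∧ rel y u) then some h.choose
    else none
  have hτ : ∀ u w, τ u = some w ↔ rel u w ∧ (Bad G t E x u ∨ ∃ y, Bad G t E x y ∧ rel y u) := by
    intro u w
    constructor
    · intro h
      by_cases hex : ∃ w, rel u w ∧ (Bad G t E x u ∨ ∃ y, Bad G t E x y ∧ rel y u)
      · have h1 : τ u = some hex.choose := dif_pos hex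
        rw [h1, Option.some.injEq] at h
        rw [← h]
        exact hex.choose_spec
      · have h1 : τ u = none := dif_neg hex
        rw [h1] at h
        exact absurd h (by simp)
    · intro h
      have hex : ∃ w, rel u w ∧ (Bad G t E x u ∨ ∃ y, Bad G t E x y ∧ rel y u) := ⟨w, h⟩
      have h1 : τ u = some hex.choose := dif_pos hex
      rw [h1, relfun u _ _ hex.choose_spec.1 h.1]
  have hbadL : ∀ u, Bad G t E x u → L u := fun u hu => Or.inl hu
  refine ⟨τ, ?_, ?_, ?_⟩
  · intro u w h
    obtain ⟨h1, h2⟩ := (hτ u w).1 h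
    have h3 := relr u w h1
    rcases h2 with hb | ⟨y, hy, hyu⟩
    · left
      rcases h3 with ⟨-, h4, h5, h6⟩ | ⟨h4, -⟩
      · refine ⟨hb, h5, h4, fun hxw => ⟨h6 hxw, ?_⟩⟩
        have hLw : L w := Or.inr ⟨h4, hxw⟩
        have h7 := hf' w hLw
        rcases hfw : f ⟨w, hLw⟩ with w' | i
        · exact ⟨w', (hτ w w').2 ⟨⟨hLw, hfw⟩, Or.inr ⟨u, hb, h1⟩⟩⟩
        · rw [hfw] at h7
          exact absurd h4 (hnb w h7)
      · exact absurd h4 (hnb u hb)
    · right
      have h4 := relr y u hyu
      rcases h4 with ⟨-, h5, -, h6⟩ | ⟨h5, -⟩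
      · obtain ⟨hu, hfu⟩ := h1
        have hxu : G.Adj x u := by
          rcases hu with hb | hb
          · exact absurd h5 (hnb u hb)
          · exact hb.2
        rcases h3 with ⟨hb, -⟩ | ⟨-, h7⟩
        · exact absurd h5 (hnb u hb)
        · rcases h7 with rfl | ⟨h8, h9, h10⟩
          · have := relinj _ _ _ hyu ⟨hu, hfu⟩
            subst this
            exact absurd h5 (hnb _ hy)
          · exact ⟨h5, hxu, h6 hxu, h10, h8, h9, y, hy, (hτ y u).2 ⟨hyu, Or.inl hy⟩⟩
      · exact absurd h5 (hnb y hy)
  · intro u u' w h h'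
    exact relinj u u' w ((hτ u w).1 h).1 ((hτ u' w).1 h').1
  · have hcd : (Finset.univ.filter fun y => Bad G t E x y ∧ τ y = none).card ≤ d := by
      have hex : ∀ y : {y // Bad G t E x y ∧ τ y = none},
          ∃ i : Fin d, f ⟨y.1, hbadL y.1 y.2.1⟩ = Sum.inr i := by
        rintro ⟨y, hy⟩
        rcases hfy : f ⟨y, hbadL y hy.1⟩ with w | i
        · have := (hτ y w).2 ⟨⟨hbadL y hy.1, hfy⟩, Or.inl hy.1⟩
          rw [hy.2] at this
          exact absurd this (by simp)
        · exact ⟨i, rfl⟩
      choose g hg using hex
      have hginj : Function.Injective g := by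
        intro y y' h
        have h1 : f ⟨y.1, hbadL y.1 y.2.1⟩ = f ⟨y'.1, hbadL y'.1 y'.2.1⟩ := by
          rw [hg y, hg y', h]
        have h2 := hfi h1
        exact Subtype.ext (Subtype.mk.inj h2)
      have h3 := Fintype.card_le_of_injective g hginj
      rw [Fintype.card_fin, Fintype.card_subtype] at h3
      exact h3
    have c7 := hk x
    have : d ≤ dg G x - k := min_le_right _ _
    omega

end Pool.Agent.IR
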