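import Pool.Agent.IR.Core

/-!
# Ideal resilience when all nodes are near the target (MP_ed14c7_lc)

If every node `x` which is not adjacent to the target `t` is joined to `t` by `k` internally disjoint
paths of length at most three, and the neighbours of `t` have degrees at least `k`, then there is a
`(k-1)`-resilient forwarding pattern for the target `t`.
-/

open Finset

namespace Pool.Agent.IR

variable {V : Type*}

/-- `P` is a system of internally disjoint paths of length at most three from `x` to `t`: the pair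
`(u, w)` is the path `x, u, w, t` (the path `x, u, t` if `u = w`). -/
def PathSystem (G : SimpleGraph V) (x t : V) (P : Finset (V × V)) : Prop :=
  (∀ p ∈ P, G.Adj x p.1 ∧ G.Adj p.2 t ∧ (p.1 = p.2 ∨ G.Adj p.1 p.2)) ∧
  ∀ p ∈ P, ∀ q ∈ P, p ≠ q → p.1 ≠ q.1 ∧ p.2 ≠ q.2 ∧ p.1 ≠ q.2

theorem short_paths [Fintype V] (G : SimpleGraph V) (t : V) (k : ℕ)
    (hnear : ∀ x, G.Adj t x → k ≤ Nat.card {u : V // G.Adj x u})
    (hfar : ∀ x, x ≠ t → ¬ G.Adj t x → ∃ P : Finset (V × V), k ≤ P.card ∧ PathSystem G x t P) :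
    ∃ π : Pattern G, ∀ F : Finset (Sym2 V), (∀ e ∈ F, e ∈ G.edgeSet) → F.card < k →
      ∀ s, Delivers π F s t := by
  classical
  -- the path systems
  have hP : ∀ x, ∃ P : Finset (V × V), x ≠ t → ¬ G.Adj t x → k ≤ P.card ∧ PathSystem G x t P := by
    intro x
    by_cases h : x ≠ t ∧ ¬ G.Adj t x
    · obtain ⟨P, h1, h2⟩ := hfar x h.1 h.2
      exact ⟨P, fun _ _ => ⟨h1, h2⟩⟩
    · exact ⟨∅, fun h1 h2 => absurd ⟨h1, h2⟩ h⟩
  choose P hP using hP
  -- the order
  let E : V → ℕ := fun v => ((Fintype.equivFin V) v).val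
  have hE : ∀ v w, E v = E w → v = w := fun v w h => (Fintype.equivFin V).injective (Fin.ext h)
  have hEn : ∀ v, E v < Fintype.card V := fun v => ((Fintype.equivFin V) v).isLt
  let rk : V → ℕ := fun v => if v = t then 0 else if G.Adj t v then Fintype.card V + 1 + E v
    else 1 + E v
  have rk_t : rk t = 0 := if_pos rfl
  have rk_near : ∀ v, G.Adj t v → rk v = Fintype.card V + 1 + E v := fun v h => by
    show ite _ _ _ = _
    rw [if_neg h.ne', if_pos h]
  have rk_far : ∀ v, v ≠ t → ¬ G.Adj t v → rk v = 1 + E v := fun v h h' => by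
    show ite _ _ _ = _
    rw [if_neg h, if_neg h']
  have hinj : Function.Injective rk := by
    intro v w h
    by_cases hv : v = t
    · by_cases hw : w = t
      · rw [hv, hw]
      · exfalso
        by_cases hw' : G.Adj t w
        · rw [hv, rk_t, rk_near w hw'] at h; omega
        · rw [hv, rk_t, rk_far w hw hw'] at h; omega
    · by_cases hw : w = t
      · exfalso
        by_cases hv' : G.Adj t v
        · rw [hw, rk_t, rk_near v hv'] at h; omega
        · rw [hw, rk_t, rk_far v hv hv'] at h; omega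
      · have h1 := hEn v
        have h2 := hEn w
        by_cases hv' : G.Adj t v <;> by_cases hw' : G.Adj t w
        · rw [rk_near v hv', rk_near w hw'] at h; exact hE _ _ (by omega)
        · rw [rk_near v hv', rk_far w hw hw'] at h; omega
        · rw [rk_far v hv hv', rk_near w hw'] at h; omega
        · rw [rk_far v hv hv', rk_far w hw hw'] at h; exact hE _ _ (by omega)
  let _ : LinearOrder V := LinearOrder.lift' rk hinj
  have hlt : ∀ v w : V, v < w ↔ rk v < rk w := fun v w => Iff.rfl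
  have htle : ∀ v : V, t ≤ v := by
    intro v
    show rk t ≤ rk v
    rw [rk_t]; exact Nat.zero_le _
  have htlt : ∀ v : V, v ≠ t → t < v := fun v hv => lt_of_le_of_ne (htle v) hv.symm
  have hhome : ∀ v, G.Adj t v → IsHome G v t := fun v hv => ⟨hv.symm, fun w _ => htle w⟩
  -- the second tests
  let σ : V → V → Option V := fun x u =>
    if h : ∃ w, x ≠ t ∧ ¬ G.Adj t x ∧ (u, w) ∈ P x ∧ ¬ G.Adj t u ∧ ¬ G.Adj x w
    then some h.choose else none
  have hσ1 : ∀ x u w, σ x u = some w →
      x ≠ t ∧ ¬ G.Adj t x ∧ (u, w) ∈ P x ∧ ¬ G.Adj t u ∧ ¬ G.Adj x w := by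
    intro x u w h
    by_cases h' : ∃ w, x ≠ t ∧ ¬ G.Adj t x ∧ (u, w) ∈ P x ∧ ¬ G.Adj t u ∧ ¬ G.Adj x w
    · have h1 : σ x u = some h'.choose := dif_pos h'
      rw [h1, Option.some.injEq] at h
      rw [← h]
      exact h'.choose_spec
    · have h1 : σ x u = none := dif_neg h'
      rw [h1] at h
      exact absurd h (by simp)
  have hσ2 : ∀ x u w, x ≠ t → ¬ G.Adj t x → (u, w) ∈ P x → ¬ G.Adj t u → ¬ G.Adj x w →
      σ x u = some w := by
    intro x u w h1 h2 h3 h4 h5
    have h' : ∃ w, x ≠ t ∧ ¬ G.Adj t x ∧ (u, w) ∈ P x ∧ ¬ G.Adj t u ∧ ¬ G.Adj x w :=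
      ⟨w, h1, h2, h3, h4, h5⟩
    have h6 : σ x u = some h'.choose := dif_pos h'
    rw [h6, Option.some.injEq]
    have h7 := h'.choose_spec
    by_contra hne
    exact ((hP x h1 h2).2.2 _ h7.2.2.1 _ h3 (fun h => hne (Prod.mk.inj h).2)).1 rfl
  have hT : Tests G σ := by
    refine ⟨?_, ?_, ?_, ?_⟩
    · intro x u w h
      obtain ⟨h1, h2, h3, h4, h5⟩ := hσ1 x u w h
      obtain ⟨h6, h7, h8⟩ := (hP x h1 h2).2.1 _ h3
      rcases h8 with h8 | h8
      · exfalso
        have h9 : u = w := h8
        rw [h9] at h4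
        exact h4 h7.symm
      · exact h8
    · intro x u w h
      obtain ⟨h1, h2, h3, h4, h5⟩ := hσ1 x u w h
      obtain ⟨h6, h7, h8⟩ := (hP x h1 h2).2.1 _ h3
      have hut : u ≠ t := by
        rintro rfl
        exact h2 (h6.symm)
      rw [hlt, rk_far u hut h4, rk_near w (h7.symm)]
      have := hEn u
      omega
    · intro x u w h
      obtain ⟨h1, h2, h3, h4, h5⟩ := hσ1 x u w h
      obtain ⟨h6, h7, h8⟩ := (hP x h1 h2).2.1 _ h3
      exact ⟨t, h7, htlt x h1⟩
    · intro x u w h
      obtain ⟨h1, h2, h3, h4, h5⟩ := hσ1 x u w h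
      obtain ⟨h6, h7, h8⟩ := (hP x h1 h2).2.1 _ h3
      refine dif_neg ?_
      rintro ⟨w', -, -, -, h9, -⟩
      exact h9 (h7.symm)
  refine ⟨pat G σ, fun F _ hF s => ?_⟩
  by_contra hn
  obtain ⟨x, hxt, hx⟩ := core hT F s hn
  -- tests of a near node
  have hnr : ∀ u, G.Adj x u → G.Adj t u → s(x, u) ∉ F → s(u, t) ∈ F := by
    intro u h1 h2 h3
    exact (hx u h1 h3).2.1 t (hhome u h2) hxt.symm
  by_cases hxn : G.Adj t x
  · -- `x` is near
    have hk := hnear x hxn
    rw [Nat.card_eq_fintype_card, Fintype.card_subtype] at hk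
    have key : ∀ u, G.Adj x u → s(x, u) ∉ F → s(u, t) ∈ F := by
      intro u h1 h2
      refine hnr u h1 ?_ h2
      have h3 := (hx u h1 h2).1
      have hut : u ≠ t := by
        rintro rfl
        exact absurd h3 (not_lt.2 (htle x))
      by_contra h4
      rw [hlt, rk_far u hut h4, rk_near x hxn] at h3
      have := hEn u
      omega
    have hle : (Finset.univ.filter fun u => G.Adj x u).card ≤ F.card := by
      refine Finset.card_le_card_of_injOn (fun u => if s(x, u) ∈ F then s(x, u) else s(u, t)) ?_ ?_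
      · intro u hu
        have hu' := (Finset.mem_filter.1 (Finset.mem_coe.1 hu)).2
        show (if s(x, u) ∈ F then s(x, u) else s(u, t)) ∈ (F : Set (Sym2 V))
        split_ifs with h
        · exact h
        · exact key u hu' h
      · intro u hu u' hu' h
        have hu1 := (Finset.mem_filter.1 (Finset.mem_coe.1 hu)).2
        have hu2 := (Finset.mem_filter.1 (Finset.mem_coe.1 hu')).2
        simp only at h
        split_ifs at h with h1 h2 h2
        · exact Sym2.congr_right.1 h
        · exfalso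
          rcases Sym2.eq_iff.1 h with ⟨e1, -⟩ | ⟨e1, -⟩
          · exact hu2.ne e1
          · exact hxt e1
        · exfalso
          rcases Sym2.eq_iff.1 h with ⟨e1, -⟩ | ⟨-, e1⟩
          · exact hu1.ne' e1
          · exact hxt e1.symm
        · exact Sym2.congr_left.1 h
    omega
  · -- `x` is far
    obtain ⟨hk, hsys⟩ := hP x hxt hxn
    have hne : ∀ p ∈ P x, p.1 ≠ x ∧ p.1 ≠ t ∧ p.2 ≠ x ∧ p.2 ≠ t := by
      intro p hp
      obtain ⟨h1, h2, -⟩ := hsys.1 p hp
      refine ⟨h1.ne', ?_, ?_, h2.ne⟩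
      · intro h
        rw [h] at h1
        exact hxn h1.symm
      · intro h
        rw [h] at h2
        exact hxn h2.symm
    have hf : ∀ p ∈ P x, ∃ e ∈ F, ∃ a b, (a = p.1 ∨ a = p.2) ∧ (b = x ∨ b = t ∨ b = p.1 ∨ b = p.2) ∧
        e = s(a, b) := by
      intro p hp
      obtain ⟨h1, h2, h3⟩ := hsys.1 p hp
      by_cases c1 : G.Adj t p.1
      · by_cases c2 : s(x, p.1) ∈ F
        · exact ⟨_, c2, p.1, x, Or.inl rfl, Or.inl rfl, Sym2.eq_swap⟩
        · exact ⟨_, hnr _ h1 c1 c2, p.1, t, Or.inl rfl, Or.inr (Or.inl rfl), rfl⟩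
      · by_cases c2 : G.Adj x p.2
        · by_cases c3 : s(x, p.2) ∈ F
          · exact ⟨_, c3, p.2, x, Or.inr rfl, Or.inl rfl, Sym2.eq_swap⟩
          · exact ⟨_, hnr _ c2 h2.symm c3, p.2, t, Or.inr rfl, Or.inr (Or.inl rfl), rfl⟩
        · by_cases c3 : s(x, p.1) ∈ F
          · exact ⟨_, c3, p.1, x, Or.inl rfl, Or.inl rfl, Sym2.eq_swap⟩
          · have h4 := hσ2 x p.1 p.2 hxt hxn hp c1 c2
            rcases (hx p.1 h1 c3).2.2 p.2 h4 with h5 | h5
            · exact ⟨_, h5, p.1, p.2, Or.inl rfl, Or.inr (Or.inr (Or.inr rfl)), rfl⟩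
            · exact ⟨_, h5 t (hhome p.2 h2.symm), p.2, t, Or.inr rfl, Or.inr (Or.inl rfl), rfl⟩
    have hne0 : Nonempty (Sym2 V) := ⟨s(t, t)⟩
    choose! f hfF hf using hf
    have hle : (P x).card ≤ F.card := by
      refine Finset.card_le_card_of_injOn f (fun p hp => hfF p hp) ?_
      intro p hp q hq hpq
      by_contra hpq'
      obtain ⟨d1, d2, d3⟩ := hsys.2 p hp q hq hpq'
      obtain ⟨-, -, d4⟩ := hsys.2 q hq p hp (Ne.symm hpq')
      obtain ⟨a, b, ha, hb, he⟩ := hf p hp
      obtain ⟨a', b', ha', hb', he'⟩ := hf q hq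
      obtain ⟨n1, n2, n3, n4⟩ := hne p hp
      obtain ⟨m1, m2, m3, m4⟩ := hne q hq
      have haa : a ≠ a' := by
        rcases ha with rfl | rfl <;> rcases ha' with rfl | rfl
        · exact d1
        · exact d3
        · exact d4.symm
        · exact d2
      have hab : a ≠ b' := by
        rcases hb' with rfl | rfl | rfl | rfl
        · rcases ha with rfl | rfl
          · exact n1
          · exact n3
        · rcases ha with rfl | rfl
          · exact n2
          · exact n4
        · rcases ha with rfl | rfl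
          · exact d1
          · exact d4.symm
        · rcases ha with rfl | rfl
          · exact d3
          · exact d2
      rw [he, he'] at hpq
      rcases Sym2.eq_iff.1 hpq with ⟨e1, -⟩ | ⟨e1, -⟩
      · exact haa e1
      · exact hab e1
    omega

end Pool.Agent.IR
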